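import Mathlib

set_option autoImplicit false

namespace Pool.Agent.H853Z.Pde

open MeasureTheory Set
open scoped ENNReal

lemma sub_le (f f' : ℝ → ℝ) (hf : ∀ x, HasDerivAt f (f' x) x) (inj : Function.Injective f)
    (g : ℝ → ℝ≥0∞) : ∫⁻ x, ENNReal.ofReal |f' x| * g (f x) ≤ ∫⁻ x, g x := by
  have := lintegral_image_eq_lintegral_abs_deriv_mul (s := univ) MeasurableSet.univ
    (fun x _ => (hf x).hasDerivWithinAt) inj.injOn g
  rw [Measure.restrict_univ] at this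
  rw [← this]
  exact setLIntegral_le_lintegral _ _

lemma scale (a : ℝ) (ha : a ≠ 0) (g : ℝ → ℝ≥0∞) :
    ∫⁻ x, g x = ∫⁻ x, ENNReal.ofReal |a| * g (a * x) := by
  have := lintegral_image_eq_lintegral_abs_deriv_mul (s := univ) (f := fun x => a * x)
    (f' := fun _ => a) MeasurableSet.univ
    (fun x _ => HasDerivAt.hasDerivWithinAt (by simpa using (hasDerivAt_id x).const_mul a))
    (mul_right_injective₀ ha).injOn g
  rw [Measure.restrict_univ, image_univ_of_surjective (mul_left_surjective₀ ha),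
    Measure.restrict_univ] at this
  exact this

lemma pointwise1 (σ v : ℝ) :
    |σ| / (1 + |v|) ≤ 4 * (1 + ‖σ‖) ^ (-(2 : ℝ)) + |3 * σ ^ 2| * (1 + ‖v‖) ^ (-(4 / 3 : ℝ)) := by
  rw [Real.norm_eq_abs, Real.norm_eq_abs]
  have h1 : 0 < 1 + |σ| := by positivity
  have h2 : 0 < 1 + |v| := by positivity
  set b := (1 + |v|) ^ (1 / 3 : ℝ) with hb
  have hb0 : 0 < b := Real.rpow_pos_of_pos h2 _
  have hb3 : b ^ 3 = 1 + |v| := by
    rw [hb, ← Real.rpow_natCast, ← Real.rpow_mul h2.le]; norm_num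
  have hb4 : (1 + |v|) ^ (-(4 / 3 : ℝ)) = (b ^ 4)⁻¹ := by
    rw [hb, ← Real.rpow_natCast, ← Real.rpow_mul h2.le, ← Real.rpow_neg h2.le]; norm_num
  have hs : (1 + |σ|) ^ (-(2 : ℝ)) = ((1 + |σ|) ^ 2)⁻¹ := by
    rw [Real.rpow_neg h1.le]; norm_num
  rw [hb4, hs, ← hb3]
  have e3 : |3 * σ ^ 2| = 3 * |σ| ^ 2 := by rw [abs_mul, abs_pow]; norm_num
  rw [e3]
  set a := |σ| with ha
  have ha0 : 0 ≤ a := abs_nonneg σ
  have hb1 : 1 ≤ b ^ 3 := by rw [hb3]; linarith [abs_nonneg v]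
  have t1 : 0 ≤ 4 * ((1 + a) ^ 2)⁻¹ := by positivity
  have t2 : 0 ≤ 3 * a ^ 2 * (b ^ 4)⁻¹ := by positivity
  by_cases c1 : 1 + a ≤ b
  · have : a / b ^ 3 ≤ 4 * ((1 + a) ^ 2)⁻¹ := by
      rw [div_le_iff₀ (by positivity)]
      have h3 : (1 + a) ^ 3 ≤ b ^ 3 := pow_le_pow_left₀ h1.le c1 3
      calc a ≤ 4 * ((1 + a) ^ 2)⁻¹ * (1 + a) ^ 3 := by
            field_simp
            linarith
        _ ≤ _ := by gcongr
    linarith
  · by_cases c2 : a ≤ 1
    · have : a / b ^ 3 ≤ 4 * ((1 + a) ^ 2)⁻¹ := by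
        have h3 : a / b ^ 3 ≤ 1 := by
          rw [div_le_one (by positivity)]; linarith
        have h4 : 1 ≤ 4 * ((1 + a) ^ 2)⁻¹ := by
          rw [← div_eq_mul_inv, le_div_iff₀ (by positivity)]; nlinarith
        linarith
      linarith
    · have : a / b ^ 3 ≤ 3 * a ^ 2 * (b ^ 4)⁻¹ := by
        rw [← div_eq_mul_inv, div_le_div_iff₀ (by positivity) (by positivity)]
        have h3 : b ≤ 3 * a := by linarith
        calc a * b ^ 4 = (a * b ^ 3) * b := by ring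
          _ ≤ (a * b ^ 3) * (3 * a) := by gcongr
          _ = _ := by ring
      linarith

lemma cubic_bound : ∃ G : ℝ≥0∞, G < ⊤ ∧ ∀ c : ℝ,
    ∫⁻ σ : ℝ, ENNReal.ofReal (|σ| / (1 + |c + σ ^ 3|)) ≤ G := by
  have f1 := finite_integral_one_add_norm (E := ℝ) (μ := volume) (r := 2) (by simp)
  have f2 := finite_integral_one_add_norm (E := ℝ) (μ := volume) (r := 4 / 3)
    (by simp; norm_num)
  refine ⟨4 * (∫⁻ σ : ℝ, ENNReal.ofReal ((1 + ‖σ‖) ^ (-(2 : ℝ)))) +
    ∫⁻ v : ℝ, ENNReal.ofReal ((1 + ‖v‖) ^ (-(4 / 3 : ℝ))),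
    ENNReal.add_lt_top.mpr ⟨ENNReal.mul_lt_top (by simp) f1, f2⟩, fun c => ?_⟩
  calc ∫⁻ σ : ℝ, ENNReal.ofReal (|σ| / (1 + |c + σ ^ 3|))
      ≤ ∫⁻ σ : ℝ, (4 * ENNReal.ofReal ((1 + ‖σ‖) ^ (-(2 : ℝ))) + ENNReal.ofReal |3 * σ ^ 2| *
          ENNReal.ofReal ((1 + ‖c + σ ^ 3‖) ^ (-(4 / 3 : ℝ)))) := by
        refine lintegral_mono fun σ => ?_
        refine (ENNReal.ofReal_le_ofReal (pointwise1 σ (c + σ ^ 3))).trans ?_
        rw [ENNReal.ofReal_add (by positivity) (by positivity), ENNReal.ofReal_mul (by norm_num),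
          ENNReal.ofReal_mul (by positivity)]
        simp
    _ = 4 * (∫⁻ σ : ℝ, ENNReal.ofReal ((1 + ‖σ‖) ^ (-(2 : ℝ)))) +
          ∫⁻ σ : ℝ, ENNReal.ofReal |3 * σ ^ 2| *
          ENNReal.ofReal ((1 + ‖c + σ ^ 3‖) ^ (-(4 / 3 : ℝ))) := by
        rw [lintegral_add_left (by fun_prop), lintegral_const_mul _ (by fun_prop)]
    _ ≤ _ := by
        refine add_le_add le_rfl ?_
        refine sub_le (fun σ => c + σ ^ 3) (fun σ => 3 * σ ^ 2) (fun x => ?_) ?_
          (fun v => ENNReal.ofReal ((1 + ‖v‖) ^ (-(4 / 3 : ℝ))))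
        · simpa using (hasDerivAt_pow 3 x).const_add c
        · intro a b h
          exact (Odd.strictMono_pow (by decide : Odd 3)).injective (add_left_cancel h)

lemma exists_cuberoot (κ : ℝ) : ∃ μ : ℝ, μ ^ 3 = κ := by
  have h : ∀ k : ℝ, 0 ≤ k → ∃ μ : ℝ, μ ^ 3 = k := fun k hk =>
    ⟨k ^ (1 / 3 : ℝ), by rw [← Real.rpow_natCast, ← Real.rpow_mul hk]; norm_num⟩
  rcases le_total 0 κ with h1 | h1
  · exact h κ h1
  · obtain ⟨μ, hμ⟩ := h (-κ) (by linarith)
    exact ⟨-μ, by rw [Odd.neg_pow (by decide), hμ]; ring⟩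

lemma cubic_scaled {G : ℝ≥0∞}
    (hG : ∀ c : ℝ, ∫⁻ σ : ℝ, ENNReal.ofReal (|σ| / (1 + |c + σ ^ 3|)) ≤ G) (c κ : ℝ)
    (hκ : κ ≠ 0) : ∫⁻ s : ℝ, ENNReal.ofReal (|s| / (1 + |c + κ * s ^ 3|)) ≤
      ENNReal.ofReal (|κ| ^ (-(2 / 3 : ℝ))) * G := by
  obtain ⟨μ, rfl⟩ := exists_cuberoot κ
  have hμ : μ ≠ 0 := fun h => hκ (by rw [h]; ring)
  have ha : 0 < |μ| := abs_pos.mpr hμ
  have e : |μ ^ 3| ^ (-(2 / 3 : ℝ)) = (|μ| ^ 2)⁻¹ := by
    rw [abs_pow, ← Real.rpow_natCast, ← Real.rpow_mul ha.le, ← Real.rpow_natCast,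
      ← Real.rpow_neg ha.le]
    norm_num
  rw [e, scale μ⁻¹ (inv_ne_zero hμ)]
  refine le_trans (le_of_eq ?_) (mul_le_mul_right (hG c) _)
  rw [← lintegral_const_mul _ (by fun_prop)]
  refine lintegral_congr fun σ => ?_
  rw [← ENNReal.ofReal_mul (by positivity), ← ENNReal.ofReal_mul (by positivity)]
  congr 1
  have : μ ^ 3 * (μ⁻¹ * σ) ^ 3 = σ ^ 3 := by field_simp
  rw [this, abs_mul, abs_inv]
  field_simp

lemma integrable_psi : Integrable (fun r : ℝ => (|r| * (1 + |r|) / 2) ^ (-(2 / 3 : ℝ))) := by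
  have hm : AEStronglyMeasurable (fun r : ℝ => (|r| * (1 + |r|) / 2) ^ (-(2 / 3 : ℝ))) volume :=
    Measurable.aestronglyMeasurable (by fun_prop)
  rw [← integrableOn_univ, ← union_compl_self (Metric.ball (0 : ℝ) 1)]
  refine IntegrableOn.union ?_ ?_
  · refine integrableOn_ball_of_norm_le_rpow (by simp) (C := (1 / 2) ^ (-(2 / 3 : ℝ)))
      (α := 2 / 3) (by simp; norm_num) ?_ hm
    have hne : ∀ᵐ r : ℝ ∂volume, r ≠ 0 := by
      simp [ae_iff]
    filter_upwards [ae_restrict_of_ae hne] with r hr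
    have h0 : 0 < |r| := abs_pos.mpr hr
    rw [Real.norm_of_nonneg (by positivity), Real.norm_eq_abs,
      ← Real.mul_rpow (by norm_num) h0.le]
    apply Real.rpow_le_rpow_of_nonpos (by positivity) _ (by norm_num)
    nlinarith
  · refine Integrable.mono' (((integrable_one_add_norm (E := ℝ) (μ := volume) (r := 4 / 3)
      (by simp; norm_num)).const_mul ((1 / 4) ^ (-(2 / 3 : ℝ)))).integrableOn) hm.restrict ?_
    filter_upwards [ae_restrict_mem Metric.isOpen_ball.measurableSet.compl] with r hr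
    have h1 : 1 ≤ |r| := by simpa using hr
    have e : (1 + ‖r‖) ^ (-(4 / 3 : ℝ)) = ((1 + |r|) ^ 2) ^ (-(2 / 3 : ℝ)) := by
      rw [Real.norm_eq_abs, ← Real.rpow_natCast, ← Real.rpow_mul (by positivity)]
      norm_num
    rw [Real.norm_of_nonneg (by positivity), e, ← Real.mul_rpow (by norm_num) (by positivity)]
    apply Real.rpow_le_rpow_of_nonpos (by positivity) _ (by norm_num)
    nlinarith

lemma weight_finite : ∫⁻ τ : ℝ, ENNReal.ofReal (|1 - τ ^ 2| ^ (-(2 / 3 : ℝ))) < ⊤ := by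
  have h1 := (integrable_psi.comp_sub_right 1).add (integrable_psi.comp_add_right 1)
  refine lt_of_le_of_lt ?_ h1.lintegral_lt_top
  have hne : ∀ᵐ r : ℝ ∂volume, r ≠ 1 := by simp [ae_iff]
  have hne' : ∀ᵐ r : ℝ ∂volume, r ≠ -1 := by simp [ae_iff]
  refine lintegral_mono_ae ?_
  filter_upwards [hne, hne'] with τ a1 a2
  apply ENNReal.ofReal_le_ofReal
  have b1 : 0 < |τ - 1| := abs_pos.mpr (sub_ne_zero.mpr a1)
  have b2 : 0 < |τ + 1| := abs_pos.mpr (fun h => a2 (by linarith))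
  have e : |1 - τ ^ 2| = |τ - 1| * |τ + 1| := by
    rw [← abs_mul, abs_sub_comm]; congr 1; ring
  simp only [Pi.add_apply]
  rcases le_total 0 τ with h | h
  · refine le_add_of_le_of_nonneg ?_ (by positivity)
    apply Real.rpow_le_rpow_of_nonpos (by positivity) _ (by norm_num)
    rw [e, abs_of_nonneg (by linarith : 0 ≤ τ + 1)]
    have : |τ - 1| ≤ τ + 1 := by rw [abs_le]; constructor <;> linarith
    nlinarith
  · refine le_add_of_nonneg_of_le (by positivity) ?_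
    apply Real.rpow_le_rpow_of_nonpos (by positivity) _ (by norm_num)
    rw [e, abs_of_nonpos (by linarith : τ - 1 ≤ 0)]
    have : |τ + 1| ≤ -(τ - 1) := by rw [abs_le]; constructor <;> linarith
    nlinarith

lemma plane_bound : ∃ J : ℝ≥0∞, J < ⊤ ∧ ∀ c : ℝ,
    ∫⁻ s : ℝ, ∫⁻ t : ℝ, ENNReal.ofReal (1 / (1 + |c + (s ^ 3 - 3 * s * t ^ 2)|)) ≤ J := by
  obtain ⟨G, hG, hG'⟩ := cubic_bound
  refine ⟨(∫⁻ τ : ℝ, ENNReal.ofReal (|1 - τ ^ 2| ^ (-(2 / 3 : ℝ)))) * G,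
    ENNReal.mul_lt_top weight_finite hG, fun c => ?_⟩
  have h3 : (0 : ℝ) < √3 := by positivity
  have h33 : (√3 : ℝ) ^ 2 = 3 := Real.sq_sqrt (by norm_num)
  have h31 : (1 : ℝ) ≤ √3 := by nlinarith
  have hne : ∀ᵐ r : ℝ ∂volume, r ≠ 0 := by simp [ae_iff]
  have hne1 : ∀ᵐ r : ℝ ∂volume, r ≠ 1 := by simp [ae_iff]
  have hne' : ∀ᵐ r : ℝ ∂volume, r ≠ -1 := by simp [ae_iff]
  calc ∫⁻ s : ℝ, ∫⁻ t : ℝ, ENNReal.ofReal (1 / (1 + |c + (s ^ 3 - 3 * s * t ^ 2)|))
      ≤ ∫⁻ s : ℝ, ∫⁻ τ : ℝ, ENNReal.ofReal (|s| / (1 + |c + (1 - τ ^ 2) * s ^ 3|)) := by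
        refine lintegral_mono_ae ?_
        filter_upwards [hne] with s hs
        rw [scale (s / √3) (div_ne_zero hs h3.ne')]
        refine lintegral_mono fun τ => ?_
        rw [← ENNReal.ofReal_mul (by positivity)]
        apply ENNReal.ofReal_le_ofReal
        have : s ^ 3 - 3 * s * (s / √3 * τ) ^ 2 = (1 - τ ^ 2) * s ^ 3 := by
          rw [mul_pow, div_pow, h33]; ring
        rw [this, mul_one_div, abs_div, abs_of_pos h3]
        gcongr
        exact div_le_self (abs_nonneg s) h31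
    _ = ∫⁻ τ : ℝ, ∫⁻ s : ℝ, ENNReal.ofReal (|s| / (1 + |c + (1 - τ ^ 2) * s ^ 3|)) := by
        refine lintegral_lintegral_swap (Measurable.aemeasurable ?_)
        unfold Function.uncurry
        fun_prop
    _ ≤ ∫⁻ τ : ℝ, ENNReal.ofReal (|1 - τ ^ 2| ^ (-(2 / 3 : ℝ))) * G := by
        refine lintegral_mono_ae ?_
        filter_upwards [hne1, hne'] with τ a1 a2
        refine cubic_scaled hG' c _ fun h => ?_
        have : (τ - 1) * (τ + 1) = 0 := by linarith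
        rcases mul_eq_zero.mp this with h | h
        · exact a1 (by linarith)
        · exact a2 (by linarith)
    _ = _ := lintegral_mul_const _ (by fun_prop)

/-- Three dimensional Euclidean space. -/
abbrev E := EuclideanSpace ℝ (Fin 3)

/-- The harmonic polynomial. -/
def H (y : E) : ℝ := y 0 + (y 1 ^ 3 - 3 * y 1 * y 2 ^ 2)

lemma continuous_H : Continuous H := by unfold H; fun_prop

lemma mp_coords : MeasurePreserving (fun y : E => ((y 0, y 1, y 2) : ℝ × ℝ × ℝ)) := by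
  have h1 := PiLp.volume_preserving_ofLp (Fin 3)
  have h2 := volume_preserving_piFinSuccAbove (fun _ : Fin 3 => ℝ) 0
  have h3 := (MeasurePreserving.id (volume : Measure ℝ)).prod (volume_preserving_finTwoArrow ℝ)
  have := h3.comp (h2.comp h1)
  exact this

lemma layer_far (M : ℝ) (hM : 0 ≤ M) : ∃ K : ℝ≥0∞, K < ⊤ ∧ ∀ x : E,
    ∫⁻ y : E, {y : E | |H y| ≤ M}.indicator (fun y => ENNReal.ofReal (1 / (1 + ‖x - y‖))) y
      ≤ K := by
  obtain ⟨J, hJ, hJ'⟩ := plane_bound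
  refine ⟨ENNReal.ofReal (2 * M) * ENNReal.ofReal (1 + M) * J,
    ENNReal.mul_lt_top (ENNReal.mul_lt_top ENNReal.ofReal_lt_top ENNReal.ofReal_lt_top) hJ,
    fun x => ?_⟩
  set F : ℝ × ℝ × ℝ → ℝ≥0∞ := fun p =>
    {p : ℝ × ℝ × ℝ | |p.1 + (p.2.1 ^ 3 - 3 * p.2.1 * p.2.2 ^ 2)| ≤ M}.indicator (fun p =>
      ENNReal.ofReal (1 + M) *
        ENNReal.ofReal (1 / (1 + |x 0 + (p.2.1 ^ 3 - 3 * p.2.1 * p.2.2 ^ 2)|))) p with hF
  have hFm : Measurable F := by
    refine Measurable.indicator (by fun_prop) ?_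
    exact measurableSet_le (by fun_prop) measurable_const
  calc ∫⁻ y : E, {y : E | |H y| ≤ M}.indicator (fun y => ENNReal.ofReal (1 / (1 + ‖x - y‖))) y
      ≤ ∫⁻ y : E, F (y 0, y 1, y 2) := by
        refine lintegral_mono fun y => ?_
        by_cases hy : |H y| ≤ M
        · rw [indicator_of_mem (by exact hy)]
          simp only [hF]
          rw [indicator_of_mem (by exact hy), ← ENNReal.ofReal_mul (by positivity)]
          apply ENNReal.ofReal_le_ofReal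
          rw [mul_one_div, div_le_div_iff₀ (by positivity) (by positivity)]
          have h1 : |x 0 - y 0| ≤ ‖x - y‖ := by
            simpa using PiLp.norm_apply_le (x - y) 0
          have h2 : |x 0 + (y 1 ^ 3 - 3 * y 1 * y 2 ^ 2)| ≤ |x 0 - y 0| + |H y| := by
            refine le_trans (le_of_eq ?_) (abs_add_le _ _)
            unfold H; congr 1; ring
          have h3 : 0 ≤ M * ‖x - y‖ := by positivity
          nlinarith
        · rw [indicator_of_notMem (by exact hy)]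
          exact zero_le
    _ = ∫⁻ p, F p := mp_coords.lintegral_comp hFm
    _ = ∫⁻ q : ℝ × ℝ, ∫⁻ a : ℝ, F (a, q) := lintegral_prod_symm _ hFm.aemeasurable
    _ = ∫⁻ q : ℝ × ℝ, ENNReal.ofReal (2 * M) * ENNReal.ofReal (1 + M) *
          ENNReal.ofReal (1 / (1 + |x 0 + (q.1 ^ 3 - 3 * q.1 * q.2 ^ 2)|)) := by
        refine lintegral_congr fun q => ?_
        set h := q.1 ^ 3 - 3 * q.1 * q.2 ^ 2 with hh
        have : (fun a : ℝ => F (a, q)) = (Icc (-h - M) (-h + M)).indicator (fun _ =>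
            ENNReal.ofReal (1 + M) * ENNReal.ofReal (1 / (1 + |x 0 + h|))) := by
          funext a
          simp only [hF, indicator, mem_ofPred_eq, mem_Icc, ← hh]
          congr 1
          rw [abs_le]
          apply propext
          constructor <;> rintro ⟨h1, h2⟩ <;> constructor <;> linarith
        rw [this, lintegral_indicator_const measurableSet_Icc, Real.volume_Icc]
        have e : -h + M - (-h - M) = 2 * M := by ring
        rw [e]
        ring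
    _ = ENNReal.ofReal (2 * M) * ENNReal.ofReal (1 + M) * ∫⁻ q : ℝ × ℝ,
          ENNReal.ofReal (1 / (1 + |x 0 + (q.1 ^ 3 - 3 * q.1 * q.2 ^ 2)|)) :=
        lintegral_const_mul _ (by fun_prop)
    _ ≤ _ := by
        gcongr
        rw [Measure.volume_eq_prod, lintegral_prod _ (Measurable.aemeasurable (by fun_prop))]
        exact hJ' (x 0)

end Pool.Agent.H853Z.Pde
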