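import Pool.Agent.H853Z.Pde.Fixed
import Pool.Agent.H853Z.Pde.Layer

set_option autoImplicit false
set_option maxSynthPendingDepth 3

namespace Pool.Agent.H853Z.Pde

open MeasureTheory Set Filter Topology
open scoped ENNReal NNReal

noncomputable def pj (i : Fin 3) : E →L[ℝ] ℝ := EuclideanSpace.proj i

lemma hasFDerivAt_coord (i : Fin 3) (y : E) : HasFDerivAt (fun y : E => y i) (pj i) y :=
  (pj i).hasFDerivAt

noncomputable def H1 (y : E) : E →L[ℝ] ℝ :=
  pj 0 + ((3 * y 1 ^ 2 - 3 * y 2 ^ 2) • pj 1 + (-6 * (y 1 * y 2)) • pj 2)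

noncomputable def H2 (y : E) : E →L[ℝ] E →L[ℝ] ℝ :=
  y 1 • (((6 : ℝ) • pj 1).smulRight (pj 1) + ((-6 : ℝ) • pj 2).smulRight (pj 2)) +
  y 2 • (((-6 : ℝ) • pj 2).smulRight (pj 1) + ((-6 : ℝ) • pj 1).smulRight (pj 2))

lemma hasFDerivAt_H (y : E) : HasFDerivAt H (H1 y) y := by
  have c := fun i => hasFDerivAt_coord i y
  refine ((c 0).add (((c 1).pow 3).sub (((c 1).const_mul 3).mul ((c 2).pow 2)))).congr_fderiv ?_
  ext v
  simp [H1]
  ring

lemma hasFDerivAt_H1 (y : E) : HasFDerivAt H1 (H2 y) y := by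
  have c := fun i => hasFDerivAt_coord i y
  refine (((((((c 1).pow 2).const_mul 3).sub (((c 2).pow 2).const_mul 3)).smul_const (pj 1)).add
    ((((c 1).mul (c 2)).const_mul (-6)).smul_const (pj 2))).const_add (pj 0)).congr_fderiv ?_
  ext v w
  simp [H2]
  ring

lemma continuous_H2 : Continuous H2 := by
  unfold H2
  exact ((pj 1).continuous.smul continuous_const).add ((pj 2).continuous.smul continuous_const)

lemma tr_H2 (y : E) : tr (EuclideanSpace.basisFun (Fin 3) ℝ) (H2 y) = 0 := by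
  rw [tr_apply]
  simp [H2, pj, Fin.sum_univ_three]

/-- the first basis vector -/
noncomputable def e0 : E := EuclideanSpace.single 0 1

/-- A homeomorphism which changes only the first coordinate. -/
noncomputable def fib (φ ψ : E → ℝ) (hφ : Continuous φ) (hψ : Continuous ψ)
    (h1 : ∀ y, φ y + ψ (y + φ y • e0) = 0) (h2 : ∀ y, ψ y + φ (y + ψ y • e0) = 0) : E ≃ₜ E where
  toFun y := y + φ y • e0
  invFun y := y + ψ y • e0
  left_inv y := by
    simp only
    rw [add_assoc, ← add_smul, h1, zero_smul, add_zero]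
  right_inv y := by
    simp only
    rw [add_assoc, ← add_smul, h2, zero_smul, add_zero]
  continuous_toFun := continuous_id.add (hφ.smul continuous_const)
  continuous_invFun := continuous_id.add (hψ.smul continuous_const)

lemma add_e0_zero (y : E) (t : ℝ) : (y + t • e0) 0 = y 0 + t := by simp [e0]
lemma add_e0_one (y : E) (t : ℝ) : (y + t • e0) 1 = y 1 := by simp [e0]
lemma add_e0_two (y : E) (t : ℝ) : (y + t • e0) 2 = y 2 := by simp [e0]

lemma exists_lip_homeo {w : E → ℝ} (hw : ∀ x y, |w x - w y| ≤ 1 / 2 * ‖x - y‖) :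
    ∃ A : E ≃ₜ E, ∀ y, A y = y + w y • e0 := by
  have h : ApproximatesLinearOn (fun y : E => y + w y • e0)
      ((ContinuousLinearEquiv.refl ℝ E : E ≃L[ℝ] E) : E →L[ℝ] E) univ (1 / 2) := by
    intro x _ y _
    have : x + w x • e0 - (y + w y • e0) -
        ((ContinuousLinearEquiv.refl ℝ E : E ≃L[ℝ] E) : E →L[ℝ] E) (x - y) = (w x - w y) • e0 := by
      simp only [ContinuousLinearEquiv.coe_refl, ContinuousLinearMap.id_apply, sub_smul]
      abel
    rw [this, norm_smul, Real.norm_eq_abs]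
    simpa [e0] using hw x y
  refine ⟨h.toHomeomorph _ (Or.inr ?_), fun y => rfl⟩
  simp
  norm_num

lemma exists_homeo {w : E → ℝ} (hw : ∀ x y, |w x - w y| ≤ 1 / 2 * ‖x - y‖) {a α β : ℝ}
    (ha : 0 < a) (hα : 0 < α) (hβ : 0 < β) : ∃ Φ : E ≃ₜ E, ∀ x,
      H (a • x) + w (a • x) = α * max (Φ x 0) 0 - β * max (-Φ x 0) 0 := by
  obtain ⟨A, hA⟩ := exists_lip_homeo hw
  let S : E ≃ₜ E := fib (fun y => y 1 ^ 3 - 3 * y 1 * y 2 ^ 2)
    (fun y => -(y 1 ^ 3 - 3 * y 1 * y 2 ^ 2)) (by fun_prop) (by fun_prop)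
    (fun y => by rw [add_e0_one, add_e0_two]; ring) (fun y => by rw [add_e0_one, add_e0_two]; ring)
  let U : ℝ → ℝ := fun t => α * max t 0 - β * max (-t) 0
  let U' : ℝ → ℝ := fun t => max t 0 / α - max (-t) 0 / β
  have hUU : ∀ t, U (U' t) = t := by
    intro t
    rcases le_total 0 t with h | h
    · have e : U' t = t / α := by
        simp only [U']
        rw [max_eq_left h, max_eq_right (by linarith)]; ring
      have h1 : 0 ≤ t / α := by positivity
      simp only [U]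
      rw [e, max_eq_left h1, max_eq_right (by linarith)]
      field_simp
      ring
    · have e : U' t = t / β := by
        simp only [U']
        rw [max_eq_right h, max_eq_left (by linarith)]; ring
      have h1 : t / β ≤ 0 := div_nonpos_of_nonpos_of_nonneg h hβ.le
      simp only [U]
      rw [e, max_eq_right h1, max_eq_left (by linarith)]
      field_simp
      ring
  have hUU' : ∀ t, U' (U t) = t := by
    intro t
    rcases le_total 0 t with h | h
    · have e : U t = α * t := by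
        simp only [U]
        rw [max_eq_left h, max_eq_right (by linarith)]; ring
      have h1 : 0 ≤ α * t := by positivity
      simp only [U']
      rw [e, max_eq_left h1, max_eq_right (by linarith)]
      field_simp
      ring
    · have e : U t = β * t := by
        simp only [U]
        rw [max_eq_right h, max_eq_left (by linarith)]; ring
      have h1 : β * t ≤ 0 := mul_nonpos_of_nonneg_of_nonpos hβ.le h
      simp only [U']
      rw [e, max_eq_right h1, max_eq_left (by linarith)]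
      field_simp
      ring
  let V : E ≃ₜ E := fib (fun y => U' (y 0) - y 0) (fun y => U (y 0) - y 0)
    (by simp only [U']; fun_prop) (by simp only [U]; fun_prop)
    (fun y => by rw [add_e0_zero, add_sub_cancel, hUU]; ring)
    (fun y => by rw [add_e0_zero, add_sub_cancel, hUU']; ring)
  refine ⟨((Homeomorph.smulOfNeZero a ha.ne').trans A).trans (S.trans V), fun x => ?_⟩
  have e1 : (((Homeomorph.smulOfNeZero a ha.ne').trans A).trans (S.trans V)) x =
      V (S (A (a • x))) := rfl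
  have e2 : ∀ y, V y 0 = U' (y 0) := fun y => by
    change (y + (U' (y 0) - y 0) • e0) 0 = _
    rw [add_e0_zero, add_sub_cancel]
  have e3 : ∀ y, S y 0 = H y := fun y => by
    change (y + (y 1 ^ 3 - 3 * y 1 * y 2 ^ 2) • e0) 0 = _
    rw [add_e0_zero, H]
  have e4 : ∀ y, H (A y) = H y + w y := fun y => by
    rw [hA, H, H, add_e0_zero, add_e0_one, add_e0_two]
    ring
  rw [e1, e2, e3, e4]
  exact (hUU _).symm

lemma cubic_bdd {p q C : ℝ} (h : ∀ t : ℝ, |t * p + t ^ 3 * q| ≤ C) : p = 0 ∧ q = 0 := by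
  have hC : 0 ≤ C := (abs_nonneg _).trans (h 0)
  have hp : p = 0 := by
    by_contra hp
    have h1 := abs_le.mp (h ((2 * C + 1) / p))
    have h2 := abs_le.mp (h (2 * ((2 * C + 1) / p)))
    have e : (2 * C + 1) / p * p = 2 * C + 1 := by field_simp
    have e2 : (2 * ((2 * C + 1) / p)) ^ 3 * q = 8 * (((2 * C + 1) / p) ^ 3 * q) := by ring
    rw [mul_assoc, e, e2] at h2
    rw [e] at h1
    linarith [h1.1, h1.2, h2.1, h2.2]
  refine ⟨hp, ?_⟩
  by_contra hq
  obtain ⟨μ, hμ⟩ := exists_cuberoot ((C + 1) / q)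
  have h1 := h μ
  rw [hp, hμ, mul_zero, zero_add, div_mul_cancel₀ _ hq] at h1
  linarith [le_abs_self (C + 1)]

lemma not_one_dim {w : E → ℝ} (hw : ∀ x, |w x| ≤ 1) {a : ℝ} (ha : 0 < a) :
    ¬ ∃ (R : E ≃ᵃⁱ[ℝ] E) (V : ℝ → ℝ), ∀ x, H (a • x) + w (a • x) = V (R x 0) := by
  rintro ⟨R, V, h⟩
  let ℓ : E →ₗ[ℝ] ℝ := (pj 0).toLinearMap ∘ₗ R.linearIsometryEquiv.toLinearEquiv.toLinearMap
  have hR : ∀ v, R v 0 = ℓ v + R 0 0 := by
    intro v
    have := R.map_vadd 0 v
    rw [vadd_eq_add, add_zero, vadd_eq_add] at this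
    rw [this]
    rfl
  have key : ∀ v : E, ℓ v = 0 → v 0 = 0 ∧ v 1 ^ 3 - 3 * v 1 * v 2 ^ 2 = 0 := by
    intro v hv
    refine cubic_bdd (C := |V (R 0 0)| + 1) fun t => ?_
    have h1 := h (a⁻¹ • t • v)
    rw [hR, map_smul, map_smul, hv, smul_zero, smul_zero, zero_add, smul_inv_smul₀ ha.ne'] at h1
    have h2 : H (t • v) = t * v 0 + t ^ 3 * (v 1 ^ 3 - 3 * v 1 * v 2 ^ 2) := by
      simp only [H, PiLp.smul_apply, smul_eq_mul]
      ring
    rw [← h2, eq_sub_of_add_eq h1]
    exact (abs_sub _ _).trans (add_le_add le_rfl (hw _))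
  let e1 : E := EuclideanSpace.single 1 1
  have h1 := (key (ℓ e1 • e0 - ℓ e0 • e1) (by
    rw [map_sub, map_smul, map_smul, smul_eq_mul, smul_eq_mul]; ring)).1
  have h2 : ℓ e1 = 0 := by simpa [e0, e1] using h1
  have h3 := (key e1 h2).2
  simp [e1] at h3

theorem main (f : ℝ → ℝ) (hf : ContDiff ℝ 1 f) (hc : HasCompactSupport f) {α β : ℝ}
    (hα : 0 < α) (hβ : 0 < β) : ∃ (u : E → ℝ) (Φ : E ≃ₜ E), ContDiff ℝ 2 u ∧
      (∀ x, Laplacian.laplacian u x = f (u x)) ∧
      (∀ x, u x = α * max (Φ x 0) 0 - β * max (-Φ x 0) 0) ∧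
      ¬ ∃ (R : E ≃ᵃⁱ[ℝ] E) (V : ℝ → ℝ), ∀ x, u x = V (R x 0) := by
  obtain ⟨C, hC⟩ := hf.lipschitzWith_of_hasCompactSupport hc (by simp)
  obtain ⟨B, hB⟩ := hc.exists_bound_of_continuous hf.continuous
  obtain ⟨M, hM0, hM⟩ := hc.exists_pos_le_norm
  obtain ⟨K, hK, hK'⟩ := layer_far (M + 1) (by linarith)
  have hd : Module.finrank ℝ E = 3 := by simp
  obtain ⟨K', hT⟩ := exists_thin (μ := volume) hd
    (isClosed_le continuous_H.abs continuous_const).measurableSet hK hK'
  obtain ⟨a, ha, w, hw1, hw2, h1, h2⟩ := exists_solution hd (EuclideanSpace.basisFun (Fin 3) ℝ)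
    hasFDerivAt_H hasFDerivAt_H1 continuous_H2 tr_H2 hT hf hC hB (fun t ht => hM t ht.le)
  obtain ⟨Φ, hΦ⟩ := exists_homeo hw2 ha hα hβ
  exact ⟨_, Φ, h1, h2, hΦ, not_one_dim hw1 ha⟩

end Pool.Agent.H853Z.Pde
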