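import Pool.Agent.H853Z.Pde.Potential

set_option autoImplicit false
set_option maxSynthPendingDepth 3
set_option linter.unusedSectionVars false

namespace Pool.Agent.H853Z.Pde

open MeasureTheory Set Filter Topology
open scoped ENNReal NNReal BoundedContinuousFunction

variable {E : Type} [NormedAddCommGroup E] [InnerProductSpace ℝ E] [FiniteDimensional ℝ E]
  [MeasurableSpace E] [BorelSpace E] {μ : Measure E} [μ.IsAddHaarMeasure]

/-- thin sets -/
structure Thin (μ : Measure E) (L : Set E) (K : ℝ) : Prop where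
  nonneg : 0 ≤ K
  far : ∀ x, Integrable (L.indicator fun y => 1 / (1 + ‖x - y‖)) μ
  int : ∀ x, Integrable (L.indicator fun y => maj (x - y)) μ
  le : ∀ x, ∫ y, L.indicator (fun y => maj (x - y)) y ∂μ ≤ K

lemma exists_thin (hd : Module.finrank ℝ E = 3) {L : Set E} (hL : MeasurableSet L) {K : ℝ≥0∞}
    (hK : K < ⊤) (h : ∀ x : E,
      ∫⁻ y, L.indicator (fun y => ENNReal.ofReal (1 / (1 + ‖x - y‖))) y ∂μ ≤ K) :
    ∃ K', Thin μ L K' := by
  have hnn : ∀ x y : E, 0 ≤ L.indicator (fun y => 1 / (1 + ‖x - y‖)) y := fun x y =>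
    indicator_nonneg (fun _ _ => by positivity) y
  have hm : ∀ x : E, AEStronglyMeasurable (L.indicator fun y => 1 / (1 + ‖x - y‖)) μ := fun x =>
    (Measurable.indicator (by fun_prop) hL).aestronglyMeasurable
  have he : ∀ x : E, ∫⁻ y, ENNReal.ofReal (L.indicator (fun y => 1 / (1 + ‖x - y‖)) y) ∂μ ≤ K := by
    intro x
    refine le_trans (le_of_eq (lintegral_congr fun y => ?_)) (h x)
    by_cases hy : y ∈ L <;> simp [hy]
  have h1 : ∀ x : E, Integrable (L.indicator fun y => 1 / (1 + ‖x - y‖)) μ := fun x =>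
    ⟨hm x, (hasFiniteIntegral_iff_ofReal (Eventually.of_forall (hnn x))).mpr ((he x).trans_lt hK)⟩
  have h2 : ∀ x : E, ∫ y, L.indicator (fun y => 1 / (1 + ‖x - y‖)) y ∂μ ≤ K.toReal := by
    intro x
    rw [integral_eq_lintegral_of_nonneg_ae (Eventually.of_forall (hnn x)) (hm x)]
    exact ENNReal.toReal_mono hK.ne (he x)
  have h3 : ∀ x : E, Integrable (fun y => sing (x - y)) μ := fun x =>
    (integrable_sing μ hd).comp_sub_left x
  have h4 : ∀ x : E, (L.indicator fun y => maj (x - y)) = fun y =>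
      L.indicator (fun y => sing (x - y)) y + 2 * L.indicator (fun y => 1 / (1 + ‖x - y‖)) y := by
    intro x
    funext y
    by_cases hy : y ∈ L <;> simp [hy, maj]
  refine ⟨∫ z : E, sing z ∂μ + 2 * K.toReal, add_nonneg (integral_nonneg sing_nonneg)
    (by positivity), h1, fun x => ?_, fun x => ?_⟩
  · rw [h4]
    exact ((h3 x).indicator hL).add ((h1 x).const_mul 2)
  · rw [h4, integral_add ((h3 x).indicator hL) ((h1 x).const_mul 2), integral_const_mul]
    have h5 : ∫ y, L.indicator (fun y => sing (x - y)) y ∂μ ≤ ∫ z : E, sing z ∂μ := by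
      rw [← integral_sub_left_eq_self sing μ x]
      exact integral_mono ((h3 x).indicator hL) (h3 x)
        (indicator_le_self' fun y _ => sing_nonneg _)
    linarith [h2 x]

variable {L : Set E} {K : ℝ} {g : E → ℝ} {B : ℝ}

lemma Thin.adm (hT : Thin μ L K) (hc : Continuous g) (hB : ∀ y, |g y| ≤ B)
    (h0 : ∀ y, y ∉ L → g y = 0) : Adm μ g B := by
  refine ⟨hc, hB, fun x => ((hT.far x).const_mul B).mono'
    (Measurable.aestronglyMeasurable (by fun_prop)) (Eventually.of_forall fun y => ?_)⟩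
  by_cases hy : y ∈ L
  · rw [indicator_of_mem hy, Real.norm_of_nonneg (by positivity)]
    gcongr
    exact hB y
  · simp [h0 y hy, hy]

lemma Thin.norm_cv_le {X : Type} [NormedAddCommGroup X] [NormedSpace ℝ X] (hT : Thin μ L K)
    (hB : ∀ y, |g y| ≤ B) (h0 : ∀ y, y ∉ L → g y = 0) {F : E → X} (hF : ∀ z, ‖F z‖ ≤ maj z)
    (x : E) : ‖cv μ F g x‖ ≤ B * K := by
  have hB0 : 0 ≤ B := (abs_nonneg _).trans (hB 0)
  refine le_trans (norm_integral_le_of_norm_le ((hT.int x).const_mul B)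
    (Eventually.of_forall fun y => ?_)) ?_
  · by_cases hy : y ∈ L
    · rw [indicator_of_mem hy, norm_smul, Real.norm_eq_abs]
      exact mul_le_mul (hB y) (hF _) (norm_nonneg _) hB0
    · simp [h0 y hy, hy]
  · rw [integral_const_mul]
    exact mul_le_mul_of_nonneg_left (hT.le x) hB0

lemma N0_le (z : E) : ‖N0 z‖ ≤ maj z := by
  rw [N0, Real.norm_of_nonneg (by positivity)]
  exact inv_le_maj z

lemma N1_le (z : E) : ‖N1 z‖ ≤ maj z := by
  rw [N1_norm]
  exact inv_sq_le_maj z

lemma Adm.int_N0 (hd : Module.finrank ℝ E = 3) (hg : Adm μ g B) (x : E) :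
    Integrable (fun y => g y • N0 (x - y)) μ := by
  refine (hg.int_maj hd x).mono' (Measurable.aestronglyMeasurable ?_)
    (Eventually.of_forall fun y => ?_)
  · have := hg.cont
    unfold N0
    fun_prop
  · rw [norm_smul, Real.norm_eq_abs]
    exact mul_le_mul_of_nonneg_left (N0_le _) (abs_nonneg _)

/-- truncation -/
def clamp (t : ℝ) : ℝ := max (-1) (min 1 t)

lemma abs_clamp_le (t : ℝ) : |clamp t| ≤ 1 :=
  abs_le.mpr ⟨le_max_left _ _, max_le (by norm_num) (min_le_left _ _)⟩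

lemma clamp_eq {t : ℝ} (h : |t| ≤ 1) : clamp t = t := by
  rw [abs_le] at h
  rw [clamp, min_eq_right h.2, max_eq_right h.1]

lemma clamp_lip (s t : ℝ) : |clamp s - clamp t| ≤ |s - t| := by
  unfold clamp
  refine (abs_max_sub_max_le_max _ _ _ _).trans (max_le (by simp) ?_)
  refine (abs_min_sub_min_le_max _ _ _ _).trans (max_le (by simp) le_rfl)

lemma continuous_clamp : Continuous clamp := by unfold clamp; fun_prop

theorem exists_fixed (hd : Module.finrank ℝ E = 3) {H : E → ℝ} (hH : Continuous H) {M : ℝ}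
    (hT : Thin μ {y | |H y| ≤ M + 1} K) {f : ℝ → ℝ} {C : ℝ≥0} (hf : LipschitzWith C f)
    (hB : ∀ t, |f t| ≤ B) (hM : ∀ t, M < |t| → f t = 0) :
    ∃ l : ℝ, 0 < l ∧ ∃ w : E → ℝ, (∀ x, |w x| ≤ 1) ∧ Adm μ (fun y => f (H y + w y)) B ∧
      (∀ x, w x = -l * cv μ N0 (fun y => f (H y + w y)) x) ∧
      ∀ x, l * ‖cv μ N1 (fun y => f (H y + w y)) x‖ ≤ 1 / 2 := by
  have hB0 : 0 ≤ B := (abs_nonneg _).trans (hB 0)
  have hK := hT.nonneg
  have hC : (0 : ℝ) ≤ C := C.2
  set l : ℝ := 1 / (2 * ((B + C) * K + 1)) with hl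
  have hl0 : 0 < l := by positivity
  have hl1 : l * ((B + C) * K + 1) = 1 / 2 := by rw [hl]; field_simp
  have hlB : l * (B * K) ≤ 1 / 2 := by
    rw [← hl1]
    gcongr
    nlinarith [mul_nonneg hC hK]
  have hlC : l * (C * K) ≤ 1 / 2 := by
    rw [← hl1]
    gcongr
    nlinarith [mul_nonneg hB0 hK]
  let G : (E →ᵇ ℝ) → E → ℝ := fun w y => f (H y + clamp (w y))
  have hGc : ∀ w, Continuous (G w) := fun w =>
    hf.continuous.comp (hH.add (continuous_clamp.comp w.continuous))
  have hG0 : ∀ w y, y ∉ {y | |H y| ≤ M + 1} → G w y = 0 := by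
    intro w y hy
    apply hM
    have h1 : M + 1 < |H y| := not_le.mp hy
    have h2 := abs_clamp_le (w y)
    have h3 : |H y| ≤ |H y + clamp (w y)| + |clamp (w y)| := by
      simpa using abs_sub (H y + clamp (w y)) (clamp (w y))
    linarith
  have hGa : ∀ w, Adm μ (G w) B := fun w => hT.adm (hGc w) (fun y => hB _) (hG0 w)
  have hTb : ∀ w x, ‖-l * cv μ N0 (G w) x‖ ≤ 1 / 2 := by
    intro w x
    rw [norm_mul, norm_neg, Real.norm_of_nonneg hl0.le]
    exact (mul_le_mul_of_nonneg_left (hT.norm_cv_le (fun y => hB _) (hG0 w) N0_le x) hl0.le).trans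
      hlB
  let T : (E →ᵇ ℝ) → (E →ᵇ ℝ) := fun w => BoundedContinuousFunction.ofNormedAddCommGroup
    (fun x => -l * cv μ N0 (G w) x) (continuous_const.mul (continuous_iff_continuousAt.mpr
      fun x => ((hGa w).hasFDerivAt_N0 hd x).continuousAt)) (1 / 2) (hTb w)
  have hTa : ∀ w x, T w x = -l * cv μ N0 (G w) x := fun w x => rfl
  have hcon : ContractingWith (1 / 2) T := by
    refine ⟨by norm_num, LipschitzWith.of_dist_le_mul fun w w' => ?_⟩
    rw [BoundedContinuousFunction.dist_le (by positivity)]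
    intro x
    have h1 : cv μ N0 (G w) x - cv μ N0 (G w') x = cv μ N0 (fun y => G w y - G w' y) x := by
      unfold cv
      rw [← integral_sub ((hGa w).int_N0 hd x) ((hGa w').int_N0 hd x)]
      congr 1
      funext y
      rw [sub_smul]
    have h2 : ‖cv μ N0 (fun y => G w y - G w' y) x‖ ≤ (C * dist w w') * K := by
      refine hT.norm_cv_le (fun y => ?_) (fun y hy => by rw [hG0 w y hy, hG0 w' y hy, sub_self])
        N0_le x
      have h3 := hf.dist_le_mul (H y + clamp (w y)) (H y + clamp (w' y))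
      rw [Real.dist_eq, Real.dist_eq, add_sub_add_left_eq_sub] at h3
      refine h3.trans (mul_le_mul_of_nonneg_left ((clamp_lip _ _).trans ?_) hC)
      rw [← Real.dist_eq]
      exact BoundedContinuousFunction.dist_coe_le_dist y
    rw [hTa, hTa, dist_eq_norm, ← mul_sub, h1, norm_mul, norm_neg, Real.norm_of_nonneg hl0.le]
    calc l * ‖cv μ N0 (fun y => G w y - G w' y) x‖ ≤ l * ((C * dist w w') * K) := by gcongr
      _ = (l * (C * K)) * dist w w' := by ring
      _ ≤ (1 / 2) * dist w w' := by gcongr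
      _ = _ := by simp
  obtain ⟨w, hw⟩ : ∃ w, T w = w := ⟨_, hcon.fixedPoint_isFixedPt⟩
  have hw1 : ∀ x, |w x| ≤ 1 := by
    intro x
    have := hTb w x
    rw [← hTa, hw, Real.norm_eq_abs] at this
    linarith
  have hGw : G w = fun y => f (H y + w y) := by
    funext y
    simp only [G, clamp_eq (hw1 y)]
  refine ⟨l, hl0, w, hw1, hGw ▸ hGa w, fun x => ?_, fun x => ?_⟩
  · rw [← hGw, ← hTa, hw]
  · rw [← hGw]
    exact (mul_le_mul_of_nonneg_left (hT.norm_cv_le (fun y => hB _) (hG0 w) N1_le x) hl0.le).trans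
      hlB

theorem exists_solution (hd : Module.finrank ℝ E = 3) (b : OrthonormalBasis (Fin 3) ℝ E)
    {H : E → ℝ} {H1 : E → E →L[ℝ] ℝ} {H2 : E → E →L[ℝ] E →L[ℝ] ℝ}
    (hH : ∀ x, HasFDerivAt H (H1 x) x) (hH1 : ∀ x, HasFDerivAt H1 (H2 x) x) (hH2 : Continuous H2)
    (htr : ∀ x, tr b (H2 x) = 0) {M : ℝ}
    (hT : Thin μ {y | |H y| ≤ M + 1} K) {f : ℝ → ℝ} (hf1 : ContDiff ℝ 1 f) {C : ℝ≥0}
    (hf : LipschitzWith C f) (hB : ∀ t, |f t| ≤ B) (hM : ∀ t, M < |t| → f t = 0) :
    ∃ a : ℝ, 0 < a ∧ ∃ w : E → ℝ, (∀ x, |w x| ≤ 1) ∧ (∀ x y, |w x - w y| ≤ 1 / 2 * ‖x - y‖) ∧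
      ContDiff ℝ 2 (fun x => H (a • x) + w (a • x)) ∧
      ∀ x, Laplacian.laplacian (fun x => H (a • x) + w (a • x)) x = f (H (a • x) + w (a • x)) := by
  have hHc : Continuous H := continuous_iff_continuousAt.mpr fun x => (hH x).continuousAt
  have hH1c : Continuous H1 := continuous_iff_continuousAt.mpr fun x => (hH1 x).continuousAt
  obtain ⟨l, hl, w, hw1, hA, hw, hw'⟩ := exists_fixed hd hHc hT hf hB hM
  set g : E → ℝ := fun y => f (H y + w y) with hg
  have hwd : ∀ x, HasFDerivAt w ((-l) • cv μ N1 g x) x := by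
    intro x
    have : w = fun x => -l * cv μ N0 g x := funext hw
    rw [this]
    exact (hA.hasFDerivAt_N0 hd x).const_mul (-l)
  have hwc : Continuous w := continuous_iff_continuousAt.mpr fun x => (hwd x).continuousAt
  have hw1c : Continuous fun x => (-l) • cv μ N1 g x := (hA.continuous_N1 hd).const_smul (-l)
  have hgd : ∀ y, HasFDerivAt g (deriv f (H y + w y) • (H1 y + (-l) • cv μ N1 g y)) y := fun y =>
    ((hf1.differentiable (by simp)) (H y + w y)).hasDerivAt.comp_hasFDerivAt y ((hH y).add (hwd y))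
  obtain ⟨W, hWc, hWd, hWt⟩ := hA.second hd b hgd
    (((hf1.continuous_deriv le_rfl).comp (hHc.add hwc)).smul (hH1c.add hw1c))
  have hc := integral_ρ_pos (E := E) (μ := μ)
  set c := ∫ z : E, ρ z ∂μ with hcdef
  set a : ℝ := (√(l * c))⁻¹ with ha
  have hs : 0 < √(l * c) := Real.sqrt_pos.mpr (by positivity)
  have ha0 : 0 < a := inv_pos.mpr hs
  have ha2 : a * a * (l * c) = 1 := by
    have : √(l * c) * √(l * c) = l * c := Real.mul_self_sqrt (by positivity)
    calc a * a * (l * c) = a * a * (√(l * c) * √(l * c)) := by rw [this]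
      _ = (a * √(l * c)) * (a * √(l * c)) := by ring
      _ = 1 := by rw [ha, inv_mul_cancel₀ hs.ne', one_mul]
  have d1 : ∀ x, HasFDerivAt (fun x => H (a • x) + w (a • x))
      (a • (H1 (a • x) + (-l) • cv μ N1 g (a • x))) x := by
    intro x
    have := hasFDerivAt_scale (F := fun y => H y + w y) (fun y => (hH y).add (hwd y)) a 1 x
    simpa using this
  have d2 : ∀ x, HasFDerivAt (fun x => a • (H1 (a • x) + (-l) • cv μ N1 g (a • x)))
      ((a * a) • (H2 (a • x) + (-l) • W (a • x))) x := fun x =>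
    hasFDerivAt_scale (F := fun y => H1 y + (-l) • cv μ N1 g y)
      (fun y => (hH1 y).add ((hWd y).const_smul (-l))) a a x
  refine ⟨a, ha0, w, hw1, fun x y => ?_, ?_, fun x => ?_⟩
  · have := Convex.norm_image_sub_le_of_norm_hasFDerivWithin_le (C := 1 / 2) (s := univ)
      (fun x _ => (hwd x).hasFDerivWithinAt) (fun x _ => by
        rw [norm_smul, norm_neg, Real.norm_of_nonneg hl.le]
        exact hw' x) convex_univ (mem_univ y) (mem_univ x)
    simpa using this
  · refine (contDiff_succ_iff_hasFDerivAt (n := 1)).mpr ⟨_, ?_, d1⟩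
    refine contDiff_one_iff_hasFDerivAt.mpr ⟨_, ?_, d2⟩
    exact ((hH2.add (hWc.const_smul (-l))).comp (continuous_const_smul a)).const_smul (a * a)
  · rw [InnerProductSpace.laplacian_eq_iteratedFDeriv_orthonormalBasis _ b]
    have e1 : fderiv ℝ (fun x => H (a • x) + w (a • x)) =
        fun x => a • (H1 (a • x) + (-l) • cv μ N1 g (a • x)) := funext fun x => (d1 x).fderiv
    simp only [iteratedFDeriv_two_apply, e1, (d2 x).fderiv, Matrix.cons_val_zero,
      Matrix.cons_val_one]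
    rw [← tr_apply, map_smul, map_add, map_smul, htr, hWt, smul_eq_mul, smul_eq_mul]
    calc a * a * (0 + -l * -(g (a • x) * c)) = (a * a * (l * c)) * g (a • x) := by ring
      _ = _ := by rw [ha2, one_mul]

end Pool.Agent.H853Z.Pde
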