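import Mathlib

set_option autoImplicit false
set_option maxSynthPendingDepth 3

namespace Pool.Agent.H853Z.Pde

open MeasureTheory Set Filter Topology

lemma glue {f g : ℝ → ℝ} {f' g' : ℝ → ℝ} (hf : ∀ s, HasDerivAt f (f' s) s)
    (hg : ∀ s, 0 < s → HasDerivAt g (g' s) s) (h0 : f 1 = g 1) (h1 : f' 1 = g' 1) (s : ℝ) :
    HasDerivAt (fun s => if s ≤ 1 then f s else g s) (if s ≤ 1 then f' s else g' s) s := by
  rcases lt_trichotomy s 1 with h | h | h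
  · rw [if_pos h.le]
    refine (hf s).congr_of_eventuallyEq ?_
    filter_upwards [Iio_mem_nhds h] with t ht
    exact if_pos (le_of_lt ht)
  · subst h
    rw [if_pos le_rfl]
    have a1 : HasDerivWithinAt (fun s => if s ≤ 1 then f s else g s) (f' 1) (Iic 1) 1 :=
      (hf 1).hasDerivWithinAt.congr (fun t ht => if_pos ht) (if_pos le_rfl)
    have a2 : HasDerivWithinAt (fun s => if s ≤ 1 then f s else g s) (f' 1) (Ici 1) 1 := by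
      rw [h1]
      refine (hg 1 one_pos).hasDerivWithinAt.congr (fun t ht => ?_) (by simp [h0])
      by_cases h : t ≤ 1
      · have : t = 1 := le_antisymm h ht
        subst this
        simp [h0]
      · exact if_neg h
    have := a1.union a2
    rwa [Iic_union_Ici, hasDerivWithinAt_univ] at this
  · rw [if_neg (not_le.mpr h)]
    refine (hg s (by linarith)).congr_of_eventuallyEq ?_
    filter_upwards [Ioi_mem_nhds h] with t ht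
    exact if_neg (not_le.mpr ht)

noncomputable def p0 (s : ℝ) : ℝ := if s ≤ 1 then (15 - 10 * s + 3 * s ^ 2) / 8 else (√s)⁻¹
noncomputable def p1 (s : ℝ) : ℝ := if s ≤ 1 then (-5 + 3 * s) / 4 else -(1 / 2) * (√s)⁻¹ ^ 3
noncomputable def p2 (s : ℝ) : ℝ := if s ≤ 1 then 3 / 4 else (3 / 4) * (√s)⁻¹ ^ 5

lemma hasDerivAt_invsqrt {s : ℝ} (hs : 0 < s) :
    HasDerivAt (fun s => (√s)⁻¹) (-(1 / 2) * (√s)⁻¹ ^ 3) s := by
  have h : 0 < √s := Real.sqrt_pos.mpr hs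
  refine ((Real.hasDerivAt_sqrt hs.ne').inv h.ne').congr_deriv ?_
  field_simp

lemma hasDerivAt_p0 (s : ℝ) : HasDerivAt p0 (p1 s) s := by
  refine glue (f := fun s => (15 - 10 * s + 3 * s ^ 2) / 8) (g := fun s => (√s)⁻¹)
    (f' := fun s => (-5 + 3 * s) / 4) (g' := fun s => -(1 / 2) * (√s)⁻¹ ^ 3) (fun s => ?_)
    (fun s hs => hasDerivAt_invsqrt hs) (by norm_num) (by norm_num) s
  refine (((((hasDerivAt_id s).const_mul 10).const_sub 15).add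
    ((hasDerivAt_pow 2 s).const_mul 3)).div_const 8).congr_deriv ?_
  simp; ring

lemma hasDerivAt_p1 (s : ℝ) : HasDerivAt p1 (p2 s) s := by
  refine glue (f := fun s => (-5 + 3 * s) / 4) (g := fun s => -(1 / 2) * (√s)⁻¹ ^ 3)
    (f' := fun _ => 3 / 4) (g' := fun s => (3 / 4) * (√s)⁻¹ ^ 5) (fun s => ?_)
    (fun s hs => ?_) (by norm_num) (by norm_num) s
  · refine ((((hasDerivAt_id s).const_mul 3).const_add (-5)).div_const 4).congr_deriv ?_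
    simp
  · refine (((hasDerivAt_invsqrt hs).pow 3).const_mul (-(1 / 2))).congr_deriv ?_
    simp; ring

lemma continuous_p2 : Continuous p2 := by
  have : p2 = fun s => (3 / 4) * (√(max s 1))⁻¹ ^ 5 := by
    funext s
    unfold p2
    split_ifs with h
    · rw [max_eq_right h]; simp
    · rw [max_eq_left (not_le.mp h).le]
  rw [this]
  refine continuous_const.mul (Continuous.pow (Continuous.inv₀ (by fun_prop) fun s => ?_) _)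
  exact (Real.sqrt_pos.mpr (lt_of_lt_of_le one_pos (le_max_right _ _))).ne'

lemma continuous_p1 : Continuous p1 :=
  continuous_iff_continuousAt.mpr fun s => (hasDerivAt_p1 s).continuousAt

variable {E : Type} [NormedAddCommGroup E] [InnerProductSpace ℝ E]

/-- the inner product as a bilinear map -/
noncomputable def ip : E →L[ℝ] E →L[ℝ] ℝ := innerSL ℝ

lemma ip_apply (z v : E) : ip z v = inner ℝ z v := rfl

lemma norm_ip (z : E) : ‖ip z‖ = ‖z‖ := innerSL_apply_norm ℝ z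

lemma norm_ip_le : ‖(ip : E →L[ℝ] E →L[ℝ] ℝ)‖ ≤ 1 := norm_innerSL_le ℝ

noncomputable def Ψ0 (z : E) : ℝ := p0 (‖z‖ ^ 2)
noncomputable def Ψ1 (z : E) : E →L[ℝ] ℝ := (2 * p1 (‖z‖ ^ 2)) • ip z
noncomputable def Ψ2 (z : E) : E →L[ℝ] E →L[ℝ] ℝ :=
  (2 * p1 (‖z‖ ^ 2)) • ip + ((4 * p2 (‖z‖ ^ 2)) • ip z).smulRight (ip z)

lemma hasFDerivAt_nsq (z : E) : HasFDerivAt (fun z : E => ‖z‖ ^ 2) ((2 : ℝ) • ip z) z := by
  refine (hasStrictFDerivAt_norm_sq z).hasFDerivAt.congr_fderiv ?_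
  ext v
  simp only [ip, two_smul]

lemma hasFDerivAt_Ψ0 (z : E) : HasFDerivAt Ψ0 (Ψ1 z) z := by
  refine ((hasDerivAt_p0 (‖z‖ ^ 2)).comp_hasFDerivAt z (hasFDerivAt_nsq z)).congr_fderiv ?_
  unfold Ψ1
  rw [smul_smul, mul_comm]

lemma hasFDerivAt_Ψ1 (z : E) : HasFDerivAt Ψ1 (Ψ2 z) z := by
  have h1 := ((hasDerivAt_p1 (‖z‖ ^ 2)).comp_hasFDerivAt z (hasFDerivAt_nsq z)).const_mul 2
  refine (h1.smul (ip.hasFDerivAt (x := z))).congr_fderiv ?_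
  unfold Ψ2
  congr 2
  rw [smul_smul, smul_smul]
  congr 1
  ring

lemma continuous_Ψ2 : Continuous (Ψ2 : E → E →L[ℝ] E →L[ℝ] ℝ) := by
  have h1 := continuous_p1
  have h2 := continuous_p2
  have h3 : Continuous (ip : E →L[ℝ] E →L[ℝ] ℝ) := ip.continuous
  have h4 : Continuous fun z : E => (2 * p1 (‖z‖ ^ 2)) • (ip : E →L[ℝ] E →L[ℝ] ℝ) := by
    fun_prop
  have h5 : Continuous fun z : E => (4 * p2 (‖z‖ ^ 2)) • ip z := by fun_prop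
  exact h4.add ((ContinuousLinearMap.smulRightL ℝ E (E →L[ℝ] ℝ)).continuous₂.comp
    (h5.prodMk h3))

omit [InnerProductSpace ℝ E] in
lemma Ψ0_out {z : E} (hz : 1 ≤ ‖z‖) : Ψ0 z = ‖z‖⁻¹ := by
  unfold Ψ0 p0
  split_ifs with h
  · have : ‖z‖ = 1 := by nlinarith
    rw [this]; norm_num
  · rw [Real.sqrt_sq (norm_nonneg z)]

lemma p1_out {r : ℝ} (hz : 1 ≤ r) : 2 * p1 (r ^ 2) = -(r⁻¹ ^ 3) := by
  unfold p1
  split_ifs with h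
  · have : r = 1 := by nlinarith
    rw [this]; norm_num
  · rw [Real.sqrt_sq (by linarith)]; ring

lemma p2_out {r : ℝ} (hz : 1 ≤ r) : 4 * p2 (r ^ 2) = 3 * (r⁻¹ ^ 5) := by
  unfold p2
  split_ifs with h
  · have : r = 1 := by nlinarith
    rw [this]; norm_num
  · rw [Real.sqrt_sq (by linarith)]; ring

omit [InnerProductSpace ℝ E] in
lemma Ψ0_bound {z : E} (hz : z ≠ 0) : |Ψ0 z| ≤ 3 * ‖z‖⁻¹ := by
  have h0 : 0 < ‖z‖ := norm_pos_iff.mpr hz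
  rcases le_total 1 ‖z‖ with h | h
  · rw [Ψ0_out h, abs_of_pos (by positivity)]
    linarith [inv_pos.mpr h0]
  · have h1 : ‖z‖ ^ 2 ≤ 1 := by nlinarith
    have h2 : 1 ≤ ‖z‖⁻¹ := (one_le_inv₀ h0).mpr h
    unfold Ψ0 p0
    rw [if_pos h1, abs_le]
    have h3 : 0 ≤ ‖z‖ ^ 2 := by positivity
    constructor <;> nlinarith

lemma Ψ1_bound {z : E} (hz : z ≠ 0) : ‖Ψ1 z‖ ≤ 3 * ‖z‖⁻¹ ^ 2 := by
  have h0 : 0 < ‖z‖ := norm_pos_iff.mpr hz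
  unfold Ψ1
  rw [norm_smul, norm_ip, Real.norm_eq_abs]
  rcases le_total 1 ‖z‖ with h | h
  · rw [p1_out h, abs_neg, abs_of_pos (by positivity)]
    have : ‖z‖⁻¹ ^ 3 * ‖z‖ = ‖z‖⁻¹ ^ 2 := by field_simp
    rw [this]
    linarith [pow_pos (inv_pos.mpr h0) 2]
  · have h1 : ‖z‖ ^ 2 ≤ 1 := by nlinarith
    have h2 : 1 ≤ ‖z‖⁻¹ ^ 2 := one_le_pow₀ ((one_le_inv₀ h0).mpr h)
    have h3 : 0 ≤ ‖z‖ ^ 2 := by positivity
    have h4 : |2 * p1 (‖z‖ ^ 2)| ≤ 3 := by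
      unfold p1
      rw [if_pos h1, abs_le]
      constructor <;> linarith
    nlinarith [abs_nonneg (2 * p1 (‖z‖ ^ 2))]

lemma Ψ2_bound {z : E} (h : 1 ≤ ‖z‖) : ‖Ψ2 z‖ ≤ 4 * ‖z‖⁻¹ := by
  have h0 : 0 < ‖z‖ := by linarith
  have h1 : ‖z‖⁻¹ ≤ 1 := inv_le_one_of_one_le₀ h
  have h2 : 0 < ‖z‖⁻¹ := by positivity
  have h3 : ‖z‖⁻¹ ^ 3 ≤ ‖z‖⁻¹ := pow_le_of_le_one h2.le h1 (by norm_num)
  have h4 : ‖(2 * p1 (‖z‖ ^ 2)) • (ip : E →L[ℝ] E →L[ℝ] ℝ)‖ ≤ ‖z‖⁻¹ ^ 3 := by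
    rw [norm_smul, p1_out h, Real.norm_eq_abs, abs_neg, abs_of_pos (by positivity)]
    exact mul_le_of_le_one_right (by positivity) norm_ip_le
  have h5 : ‖((4 * p2 (‖z‖ ^ 2)) • ip z).smulRight (ip z)‖ = 3 * ‖z‖⁻¹ ^ 3 := by
    rw [ContinuousLinearMap.norm_smulRight_apply, norm_smul, norm_ip, p2_out h,
      Real.norm_eq_abs, abs_of_pos (by positivity)]
    field_simp
  have h6 : ‖Ψ2 z‖ ≤ ‖(2 * p1 (‖z‖ ^ 2)) • (ip : E →L[ℝ] E →L[ℝ] ℝ)‖ +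
      ‖((4 * p2 (‖z‖ ^ 2)) • ip z).smulRight (ip z)‖ := norm_add_le _ _
  linarith

/-- the trace of a bilinear form -/
noncomputable def tr (b : OrthonormalBasis (Fin 3) ℝ E) : (E →L[ℝ] E →L[ℝ] ℝ) →L[ℝ] ℝ :=
  ∑ i : Fin 3, (ContinuousLinearMap.apply ℝ ℝ (b i)).comp
    (ContinuousLinearMap.apply ℝ (E →L[ℝ] ℝ) (b i))

lemma tr_apply (b : OrthonormalBasis (Fin 3) ℝ E) (B : E →L[ℝ] E →L[ℝ] ℝ) :
    tr b B = ∑ i : Fin 3, B (b i) (b i) := by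
  simp [tr]

/-- minus the Laplacian of the regularised kernel -/
noncomputable def ρ (z : E) : ℝ := (15 / 2) * max (1 - ‖z‖ ^ 2) 0

lemma tr_Ψ2 (b : OrthonormalBasis (Fin 3) ℝ E) (z : E) : tr b (Ψ2 z) = -ρ z := by
  have h1 : tr b (Ψ2 z) = 3 * (2 * p1 (‖z‖ ^ 2)) + (4 * p2 (‖z‖ ^ 2)) * ‖z‖ ^ 2 := by
    rw [tr_apply]
    have h2 := b.sum_sq_inner_left z
    have h3 : ∀ i, Ψ2 z (b i) (b i) =
        2 * p1 (‖z‖ ^ 2) + (4 * p2 (‖z‖ ^ 2)) * (inner ℝ z (b i)) ^ 2 := by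
      intro i
      have : inner ℝ (b i) (b i) = (1 : ℝ) := by
        rw [real_inner_self_eq_norm_sq, b.orthonormal.1 i]; norm_num
      simp only [Ψ2, add_apply, smul_apply,
        ContinuousLinearMap.smulRight_apply, ip_apply, smul_eq_mul, this]
      ring
    simp only [h3, Finset.sum_add_distrib, ← Finset.mul_sum, h2]
    simp
    ring
  rw [h1]
  unfold ρ
  rcases le_total 1 ‖z‖ with h | h
  · have h0 : 0 < ‖z‖ := by linarith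
    rw [p1_out h, p2_out h, max_eq_right (by nlinarith)]
    field_simp
    ring
  · have h1 : ‖z‖ ^ 2 ≤ 1 := by nlinarith [norm_nonneg z]
    unfold p1 p2
    rw [if_pos h1, if_pos h1, max_eq_left (by linarith)]
    ring

noncomputable def K0 (δ : ℝ) (z : E) : ℝ := δ⁻¹ • Ψ0 (δ⁻¹ • z)
noncomputable def K1 (δ : ℝ) (z : E) : E →L[ℝ] ℝ := (δ⁻¹ ^ 2) • Ψ1 (δ⁻¹ • z)
noncomputable def K2 (δ : ℝ) (z : E) : E →L[ℝ] E →L[ℝ] ℝ := (δ⁻¹ ^ 3) • Ψ2 (δ⁻¹ • z)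
noncomputable def N1 (z : E) : E →L[ℝ] ℝ := (-(‖z‖⁻¹ ^ 3)) • ip z

lemma hasFDerivAt_scale {X : Type} [NormedAddCommGroup X] [NormedSpace ℝ X] {F : E → X}
    {F' : E → E →L[ℝ] X} (h : ∀ z, HasFDerivAt F (F' z) z) (a c : ℝ) (z : E) :
    HasFDerivAt (fun z => c • F (a • z)) ((c * a) • F' (a • z)) z := by
  have h1 : HasFDerivAt (fun z : E => a • z) (a • ContinuousLinearMap.id ℝ E) z :=
    (hasFDerivAt_id z).const_smul a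
  refine (((h (a • z)).comp z h1).const_smul c).congr_fderiv ?_
  ext v
  simp [mul_smul]

lemma hasFDerivAt_K0 (δ : ℝ) (z : E) : HasFDerivAt (K0 δ) (K1 δ z) z := by
  refine (hasFDerivAt_scale hasFDerivAt_Ψ0 δ⁻¹ δ⁻¹ z).congr_fderiv ?_
  unfold K1
  rw [sq]

lemma hasFDerivAt_K1 (δ : ℝ) (z : E) : HasFDerivAt (K1 δ) (K2 δ z) z := by
  refine (hasFDerivAt_scale hasFDerivAt_Ψ1 δ⁻¹ (δ⁻¹ ^ 2) z).congr_fderiv ?_
  unfold K2
  rw [← pow_succ]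

lemma continuous_K2 (δ : ℝ) : Continuous (K2 δ : E → E →L[ℝ] E →L[ℝ] ℝ) :=
  (continuous_Ψ2.comp (continuous_const_smul δ⁻¹)).const_smul (δ⁻¹ ^ 3)

lemma continuous_K1 (δ : ℝ) : Continuous (K1 δ : E → E →L[ℝ] ℝ) :=
  continuous_iff_continuousAt.mpr fun z => (hasFDerivAt_K1 δ z).continuousAt

lemma continuous_K0 (δ : ℝ) : Continuous (K0 δ : E → ℝ) :=
  continuous_iff_continuousAt.mpr fun z => (hasFDerivAt_K0 δ z).continuousAt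

lemma norm_scale {δ : ℝ} (hδ : 0 < δ) (z : E) : ‖δ⁻¹ • z‖ = δ⁻¹ * ‖z‖ := by
  rw [norm_smul, Real.norm_eq_abs, abs_of_pos (inv_pos.mpr hδ)]

lemma one_le_scale {δ : ℝ} (hδ : 0 < δ) {z : E} (hz : δ ≤ ‖z‖) : 1 ≤ ‖δ⁻¹ • z‖ := by
  rw [norm_scale hδ, ← div_eq_inv_mul, le_div_iff₀ hδ]
  linarith

lemma K0_out {δ : ℝ} (hδ : 0 < δ) {z : E} (hz : δ ≤ ‖z‖) : K0 δ z = ‖z‖⁻¹ := by
  have h0 : 0 < ‖z‖ := by linarith
  unfold K0
  rw [Ψ0_out (one_le_scale hδ hz), norm_scale hδ, smul_eq_mul]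
  field_simp

lemma K1_out {δ : ℝ} (hδ : 0 < δ) {z : E} (hz : δ ≤ ‖z‖) : K1 δ z = N1 z := by
  have h0 : 0 < ‖z‖ := by linarith
  unfold K1 N1 Ψ1
  rw [p1_out (one_le_scale hδ hz), norm_scale hδ, map_smul, smul_smul, smul_smul]
  congr 1
  field_simp

lemma K0_bound {δ : ℝ} (hδ : 0 < δ) {z : E} (hz : z ≠ 0) : |K0 δ z| ≤ 3 * ‖z‖⁻¹ := by
  have h0 : 0 < ‖z‖ := norm_pos_iff.mpr hz
  have h := Ψ0_bound (smul_ne_zero (inv_pos.mpr hδ).ne' hz)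
  unfold K0
  rw [smul_eq_mul, abs_mul, abs_of_pos (inv_pos.mpr hδ)]
  rw [norm_scale hδ] at h
  calc δ⁻¹ * |Ψ0 (δ⁻¹ • z)| ≤ δ⁻¹ * (3 * (δ⁻¹ * ‖z‖)⁻¹) := by gcongr
    _ = _ := by field_simp

lemma K1_bound {δ : ℝ} (hδ : 0 < δ) {z : E} (hz : z ≠ 0) : ‖K1 δ z‖ ≤ 3 * ‖z‖⁻¹ ^ 2 := by
  have h0 : 0 < ‖z‖ := norm_pos_iff.mpr hz
  have h := Ψ1_bound (smul_ne_zero (inv_pos.mpr hδ).ne' hz)
  unfold K1
  rw [norm_smul, Real.norm_eq_abs, abs_of_pos (by positivity)]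
  rw [norm_scale hδ] at h
  calc δ⁻¹ ^ 2 * ‖Ψ1 (δ⁻¹ • z)‖ ≤ δ⁻¹ ^ 2 * (3 * (δ⁻¹ * ‖z‖)⁻¹ ^ 2) := by gcongr
    _ = _ := by field_simp

lemma N1_norm (z : E) : ‖N1 z‖ = ‖z‖⁻¹ ^ 2 := by
  unfold N1
  rw [norm_smul, norm_ip, Real.norm_eq_abs, abs_neg, abs_of_nonneg (by positivity)]
  by_cases h : ‖z‖ = 0
  · simp [h]
  · field_simp

lemma K2_bound {δ : ℝ} (hδ : 0 < δ) {z : E} (hz : δ ≤ ‖z‖) :
    ‖K2 δ z‖ ≤ (4 * δ⁻¹ ^ 2) * ‖z‖⁻¹ := by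
  have h0 : 0 < ‖z‖ := by linarith
  have h := Ψ2_bound (one_le_scale hδ hz)
  unfold K2
  rw [norm_smul, Real.norm_eq_abs, abs_of_pos (by positivity)]
  rw [norm_scale hδ] at h
  calc δ⁻¹ ^ 3 * ‖Ψ2 (δ⁻¹ • z)‖ ≤ δ⁻¹ ^ 3 * (4 * (δ⁻¹ * ‖z‖)⁻¹) := by gcongr
    _ = _ := by field_simp

lemma tr_K2 (b : OrthonormalBasis (Fin 3) ℝ E) (δ : ℝ) (z : E) :
    tr b (K2 δ z) = -(δ⁻¹ ^ 3 * ρ (δ⁻¹ • z)) := by
  unfold K2
  rw [map_smul, tr_Ψ2, smul_eq_mul]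
  ring

omit [InnerProductSpace ℝ E] in
lemma decay_of [ProperSpace E] {X : Type} [NormedAddCommGroup X] {F : E → X} (hF : Continuous F)
    {R C : ℝ} (hC : 0 ≤ C) (h : ∀ z, R ≤ ‖z‖ → 1 ≤ ‖z‖ → ‖F z‖ ≤ C * ‖z‖⁻¹) :
    ∃ C', 0 ≤ C' ∧ ∀ z, ‖F z‖ ≤ C' * (1 / (1 + ‖z‖)) := by
  obtain ⟨B, hB⟩ := (isCompact_closedBall (0 : E) (max R 1)).exists_bound_of_continuousOn
    hF.continuousOn
  have hB0 : 0 ≤ B := (norm_nonneg _).trans (hB 0 (by simp))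
  have hm : 1 ≤ max R 1 := le_max_right _ _
  refine ⟨B * (1 + max R 1) + 2 * C, by positivity, fun z => ?_⟩
  have h0 : 0 < 1 + ‖z‖ := by positivity
  rw [mul_one_div, le_div_iff₀ h0]
  rcases le_total ‖z‖ (max R 1) with h1 | h1
  · have := hB z (by simpa using h1)
    have h2 : ‖F z‖ * (1 + ‖z‖) ≤ B * (1 + max R 1) := by gcongr
    linarith
  · have h2 : 1 ≤ ‖z‖ := hm.trans h1
    have h3 := h z ((le_max_left _ _).trans h1) h2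
    have h4 : ‖F z‖ * (1 + ‖z‖) ≤ C * ‖z‖⁻¹ * (2 * ‖z‖) := by gcongr; linarith
    have h5 : C * ‖z‖⁻¹ * (2 * ‖z‖) = 2 * C := by field_simp
    have h6 : 0 ≤ B * (1 + max R 1) := by positivity
    linarith

lemma K0_decay [ProperSpace E] {δ : ℝ} (hδ : 0 < δ) :
    ∃ C, 0 ≤ C ∧ ∀ z : E, ‖K0 δ z‖ ≤ C * (1 / (1 + ‖z‖)) :=
  decay_of (continuous_K0 δ) (R := 0) (C := 3) (by norm_num) fun z _ h =>
    K0_bound hδ (by rintro rfl; norm_num at h)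

lemma K1_decay [ProperSpace E] {δ : ℝ} (hδ : 0 < δ) :
    ∃ C, 0 ≤ C ∧ ∀ z : E, ‖K1 δ z‖ ≤ C * (1 / (1 + ‖z‖)) :=
  decay_of (continuous_K1 δ) (R := 0) (C := 3) (by norm_num) fun z _ h => by
    refine (K1_bound hδ (by rintro rfl; norm_num at h)).trans ?_
    have h1 : ‖z‖⁻¹ ≤ 1 := inv_le_one_of_one_le₀ h
    have h3 : ‖z‖⁻¹ ^ 2 ≤ ‖z‖⁻¹ := pow_le_of_le_one (by positivity) h1 (by norm_num)
    linarith

lemma K2_decay [ProperSpace E] {δ : ℝ} (hδ : 0 < δ) :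
    ∃ C, 0 ≤ C ∧ ∀ z : E, ‖K2 δ z‖ ≤ C * (1 / (1 + ‖z‖)) :=
  decay_of (continuous_K2 δ) (R := δ) (by positivity) fun _ h _ => K2_bound hδ h

end Pool.Agent.H853Z.Pde
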