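import Pool.Agent.H853Z.Pde.Kernel

set_option autoImplicit false
set_option maxSynthPendingDepth 3
set_option linter.unusedSectionVars false

namespace Pool.Agent.H853Z.Pde

open MeasureTheory Set Filter Topology

variable {E : Type} [NormedAddCommGroup E] [InnerProductSpace ℝ E] [FiniteDimensional ℝ E]
  [MeasurableSpace E] [BorelSpace E] (μ : Measure E) [μ.IsAddHaarMeasure]

noncomputable def sing (z : E) : ℝ := (Metric.ball (0 : E) 2).indicator (fun z => ‖z‖⁻¹ ^ 2) z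

lemma sing_nonneg (z : E) : 0 ≤ sing z :=
  indicator_nonneg (fun _ _ => by positivity) z

lemma sing_eq {z : E} (h : ‖z‖ ≤ 1) : sing z = ‖z‖⁻¹ ^ 2 :=
  indicator_of_mem (by rw [mem_ball_zero_iff]; linarith) _

lemma integrable_sing (hd : Module.finrank ℝ E = 3) : Integrable (sing : E → ℝ) μ := by
  unfold sing
  rw [integrable_indicator_iff Metric.isOpen_ball.measurableSet]
  refine integrableOn_ball_of_norm_le_rpow (by omega) (C := 1) (α := 2) (by rw [hd]; norm_num)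
    (Eventually.of_forall fun z => ?_) (Measurable.aestronglyMeasurable (by fun_prop))
  rw [Real.norm_of_nonneg (by positivity), one_mul, Real.rpow_neg (norm_nonneg z), inv_pow]
  norm_num

noncomputable def maj (z : E) : ℝ := sing z + 2 * (1 / (1 + ‖z‖))

lemma maj_nonneg (z : E) : 0 ≤ maj z := add_nonneg (sing_nonneg z) (by positivity)

lemma inv_le_far {r : ℝ} (h : 1 ≤ r) : r⁻¹ ≤ 2 * (1 / (1 + r)) := by
  rw [inv_eq_one_div, mul_one_div, div_le_div_iff₀ (by linarith) (by linarith)]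
  linarith

lemma inv_le_maj (z : E) : ‖z‖⁻¹ ≤ maj z := by
  unfold maj
  rcases le_total ‖z‖ 1 with h | h
  · rw [sing_eq h]
    have h1 : ‖z‖⁻¹ ≤ ‖z‖⁻¹ ^ 2 := by
      by_cases h0 : ‖z‖ = 0
      · simp [h0]
      · have : 1 ≤ ‖z‖⁻¹ := (one_le_inv₀ (lt_of_le_of_ne (norm_nonneg z) (Ne.symm h0))).mpr h
        nlinarith
    have : 0 ≤ 2 * (1 / (1 + ‖z‖)) := by positivity
    linarith
  · linarith [inv_le_far h, sing_nonneg z]

lemma inv_sq_le_maj (z : E) : ‖z‖⁻¹ ^ 2 ≤ maj z := by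
  unfold maj
  rcases le_total ‖z‖ 1 with h | h
  · rw [sing_eq h]
    have : 0 ≤ 2 * (1 / (1 + ‖z‖)) := by positivity
    linarith
  · have h1 : ‖z‖⁻¹ ≤ 1 := inv_le_one_of_one_le₀ h
    have h3 : ‖z‖⁻¹ ^ 2 ≤ ‖z‖⁻¹ := pow_le_of_le_one (by positivity) h1 (by norm_num)
    linarith [inv_le_far h, sing_nonneg z]

/-- admissible densities -/
structure Adm (g : E → ℝ) (B : ℝ) : Prop where
  cont : Continuous g
  bdd : ∀ y, |g y| ≤ B
  far : ∀ x, Integrable (fun y => |g y| * (1 / (1 + ‖x - y‖))) μ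

/-- convolution -/
noncomputable def cv {X : Type} [NormedAddCommGroup X] [NormedSpace ℝ X] (F : E → X) (g : E → ℝ)
    (x : E) : X := ∫ y, g y • F (x - y) ∂μ

variable {μ}

lemma Adm.int_maj (hd : Module.finrank ℝ E = 3) {g : E → ℝ} {B : ℝ} (hg : Adm μ g B) (x : E) :
    Integrable (fun y => |g y| * maj (x - y)) μ := by
  have h1 : Integrable (fun y => |g y| * sing (x - y)) μ := by
    refine ((integrable_sing μ hd).comp_sub_left x).bdd_mul (c := B)
      hg.cont.abs.aestronglyMeasurable (Eventually.of_forall fun y => ?_)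
    rw [Real.norm_eq_abs, abs_abs]
    exact hg.bdd y
  refine (h1.add ((hg.far x).const_mul 2)).congr (Eventually.of_forall fun y => ?_)
  simp only [maj, Pi.add_apply]
  ring

section Gen

variable {X : Type} [NormedAddCommGroup X] [NormedSpace ℝ X] {g : E → ℝ} {B : ℝ}

lemma near_bound {x x0 : E} (h : x ∈ Metric.ball x0 1) (y : E) :
    1 / (1 + ‖x - y‖) ≤ 2 * (1 / (1 + ‖x0 - y‖)) := by
  rw [mul_one_div, div_le_div_iff₀ (by positivity) (by positivity)]
  have h1 : ‖x0 - y‖ ≤ ‖x0 - x‖ + ‖x - y‖ := norm_sub_le_norm_sub_add_norm_sub _ _ _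
  have h2 : ‖x0 - x‖ < 1 := by rw [← dist_eq_norm, dist_comm]; exact h
  linarith [norm_nonneg (x - y)]

lemma decay_bound {F : E → X} {C : ℝ} (hC : 0 ≤ C) (hF : ∀ z, ‖F z‖ ≤ C * (1 / (1 + ‖z‖)))
    {x x0 : E} (h : x ∈ Metric.ball x0 1) (y : E) :
    ‖g y • F (x - y)‖ ≤ (2 * C) * (|g y| * (1 / (1 + ‖x0 - y‖))) := by
  rw [norm_smul, Real.norm_eq_abs]
  calc |g y| * ‖F (x - y)‖ ≤ |g y| * (C * (2 * (1 / (1 + ‖x0 - y‖)))) := by
        gcongr
        exact (hF _).trans (mul_le_mul_of_nonneg_left (near_bound h y) hC)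
    _ = _ := by ring

lemma Adm.meas (hg : Adm μ g B) {F : E → X} (hF : Continuous F) (x : E) :
    AEStronglyMeasurable (fun y => g y • F (x - y)) μ :=
  (hg.cont.smul (hF.comp (continuous_const.sub continuous_id))).aestronglyMeasurable

lemma Adm.int_cv (hg : Adm μ g B) {F : E → X} (hF : Continuous F)
    (hdec : ∃ C, 0 ≤ C ∧ ∀ z, ‖F z‖ ≤ C * (1 / (1 + ‖z‖))) (x : E) :
    Integrable (fun y => g y • F (x - y)) μ := by
  obtain ⟨C, hC, h⟩ := hdec
  exact ((hg.far x).const_mul (2 * C)).mono' (hg.meas hF x)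
    (Eventually.of_forall fun y => decay_bound hC h (Metric.mem_ball_self one_pos) y)

lemma Adm.continuous_cv (hg : Adm μ g B) {F : E → X} (hF : Continuous F)
    (hdec : ∃ C, 0 ≤ C ∧ ∀ z, ‖F z‖ ≤ C * (1 / (1 + ‖z‖))) : Continuous (cv μ F g) := by
  obtain ⟨C, hC, h⟩ := hdec
  rw [continuous_iff_continuousAt]
  intro x0
  refine continuousAt_of_dominated (Eventually.of_forall (hg.meas hF)) ?_
    ((hg.far x0).const_mul (2 * C)) (Eventually.of_forall fun y => ?_)
  · filter_upwards [Metric.ball_mem_nhds x0 one_pos] with x hx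
    exact Eventually.of_forall fun y => decay_bound hC h hx y
  · exact ((hF.comp (continuous_id.sub continuous_const)).const_smul (g y)).continuousAt

lemma Adm.hasFDerivAt_cv (hg : Adm μ g B) {F : E → X} {F' : E → E →L[ℝ] X}
    (hF : ∀ z, HasFDerivAt F (F' z) z) (hF' : Continuous F')
    (hdec : ∃ C, 0 ≤ C ∧ ∀ z, ‖F z‖ ≤ C * (1 / (1 + ‖z‖)))
    (hdec' : ∃ C, 0 ≤ C ∧ ∀ z, ‖F' z‖ ≤ C * (1 / (1 + ‖z‖))) (x0 : E) :
    HasFDerivAt (cv μ F g) (cv μ F' g x0) x0 := by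
  have hc : Continuous F := continuous_iff_continuousAt.mpr fun z => (hF z).continuousAt
  obtain ⟨C, hC, h⟩ := hdec'
  refine hasFDerivAt_integral_of_dominated_of_fderiv_le (F' := fun x y => g y • F' (x - y))
    (Metric.ball_mem_nhds x0 one_pos) (Eventually.of_forall (hg.meas hc)) (hg.int_cv hc hdec x0)
    (hg.meas hF' x0) (Eventually.of_forall fun y x hx => decay_bound hC h hx y)
    ((hg.far x0).const_mul (2 * C)) (Eventually.of_forall fun y x _ => ?_)
  refine (((hF (x - y)).comp x ((hasFDerivAt_id x).sub_const y)).const_smul (g y)).congr_fderiv ?_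
  simp

end Gen

/-- the scales -/
noncomputable def dl (n : ℕ) : ℝ := 1 / ((n : ℝ) + 1)

lemma dl_pos (n : ℕ) : 0 < dl n := by unfold dl; positivity

lemma dl_le (n : ℕ) : dl n ≤ 1 := by
  unfold dl
  rw [div_le_one (by positivity)]
  linarith [Nat.cast_nonneg (α := ℝ) n]

lemma tendsto_dl : Tendsto dl atTop (𝓝 0) := tendsto_one_div_add_atTop_nhds_zero_nat

lemma eventually_dl_le {z : E} (hz : z ≠ 0) : ∀ᶠ n in atTop, dl n ≤ ‖z‖ :=
  (tendsto_dl.eventually (Iic_mem_nhds (norm_pos_iff.mpr hz)))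

noncomputable def N0 (z : E) : ℝ := ‖z‖⁻¹

lemma ae_ne (hd : Module.finrank ℝ E = 3) (x : E) : ∀ᵐ y ∂μ, y ≠ x := by
  have : Nontrivial E := Module.nontrivial_of_finrank_pos (R := ℝ) (by omega)
  simp [ae_iff]

variable {g : E → ℝ} {B : ℝ}

lemma Adm.tendsto_K0 (hd : Module.finrank ℝ E = 3) (hg : Adm μ g B) (x : E) :
    Tendsto (fun n => cv μ (K0 (dl n)) g x) atTop (𝓝 (cv μ N0 g x)) := by
  refine tendsto_integral_filter_of_dominated_convergence (fun y => 3 * (|g y| * maj (x - y)))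
    (Eventually.of_forall fun n => hg.meas (continuous_K0 _) x)
    (Eventually.of_forall fun n => ?_) ((hg.int_maj hd x).const_mul 3) ?_
  · filter_upwards [ae_ne hd x] with y hy
    have h1 := K0_bound (dl_pos n) (sub_ne_zero.mpr hy.symm)
    have h2 := inv_le_maj (x - y)
    rw [norm_smul, Real.norm_eq_abs, Real.norm_eq_abs]
    calc |g y| * |K0 (dl n) (x - y)| ≤ |g y| * (3 * maj (x - y)) := by
          gcongr
          linarith
      _ = _ := by ring
  · filter_upwards [ae_ne hd x] with y hy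
    refine tendsto_const_nhds.congr' ?_
    filter_upwards [eventually_dl_le (sub_ne_zero.mpr hy.symm)] with n hn
    rw [K0_out (dl_pos n) hn, N0]

lemma meas_N1 : AEStronglyMeasurable (N1 : E → E →L[ℝ] ℝ) μ := by
  have h1 : AEStronglyMeasurable (fun z : E => -(‖z‖⁻¹ ^ 3)) μ :=
    Measurable.aestronglyMeasurable (by fun_prop)
  exact h1.smul (ip : E →L[ℝ] E →L[ℝ] ℝ).continuous.aestronglyMeasurable

noncomputable def DD (δ : ℝ) (z : E) : E →L[ℝ] ℝ := K1 δ z - N1 z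

lemma meas_DD (δ : ℝ) : AEStronglyMeasurable (DD δ : E → E →L[ℝ] ℝ) μ :=
  (continuous_K1 δ).aestronglyMeasurable.sub meas_N1

lemma DD_out {δ : ℝ} (hδ : 0 < δ) {z : E} (hz : δ ≤ ‖z‖) : DD δ z = 0 := by
  rw [DD, K1_out hδ hz, sub_self]

lemma DD_bound {δ : ℝ} (hδ : 0 < δ) (hδ1 : δ ≤ 1) {z : E} (hz : z ≠ 0) :
    ‖DD δ z‖ ≤ 4 * sing z := by
  rcases le_total δ ‖z‖ with h | h
  · rw [DD_out hδ h, norm_zero]
    linarith [sing_nonneg z]
  · rw [sing_eq (h.trans hδ1)]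
    have h1 := K1_bound hδ hz
    have h2 := N1_norm z
    have h3 : ‖DD δ z‖ ≤ ‖K1 δ z‖ + ‖N1 z‖ := norm_sub_le _ _
    linarith

lemma integrable_DD (hd : Module.finrank ℝ E = 3) {δ : ℝ} (hδ : 0 < δ) (hδ1 : δ ≤ 1) :
    Integrable (DD δ : E → E →L[ℝ] ℝ) μ := by
  refine ((integrable_sing μ hd).const_mul 4).mono' (meas_DD δ) ?_
  filter_upwards [ae_ne hd 0] with z hz
  exact DD_bound hδ hδ1 hz

lemma tendsto_DD (hd : Module.finrank ℝ E = 3) :
    Tendsto (fun n => ∫ z : E, ‖DD (dl n) z‖ ∂μ) atTop (𝓝 0) := by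
  have := tendsto_integral_filter_of_dominated_convergence (μ := μ) (l := atTop)
    (F := fun n (z : E) => ‖DD (dl n) z‖) (f := fun _ => 0) (fun z => 4 * sing z)
    (Eventually.of_forall fun n => (meas_DD _).norm)
    (Eventually.of_forall fun n => ?_) ((integrable_sing μ hd).const_mul 4) ?_
  · simpa using this
  · filter_upwards [ae_ne hd 0] with z hz
    rw [norm_norm]
    exact DD_bound (dl_pos n) (dl_le n) hz
  · filter_upwards [ae_ne hd 0] with z hz
    refine tendsto_const_nhds.congr' ?_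
    filter_upwards [eventually_dl_le hz] with n hn
    rw [DD_out (dl_pos n) hn, norm_zero]

noncomputable def cd (μ : Measure E) (δ : ℝ) (g : E → ℝ) (x : E) : E →L[ℝ] ℝ :=
  ∫ z, g (x - z) • DD δ z ∂μ

lemma Adm.int_cd (hd : Module.finrank ℝ E = 3) (hg : Adm μ g B) {δ : ℝ} (hδ : 0 < δ)
    (hδ1 : δ ≤ 1) (x : E) : Integrable (fun z => g (x - z) • DD δ z) μ := by
  refine ((integrable_DD hd hδ hδ1).norm.const_mul B).mono'
    ((hg.cont.comp (continuous_const.sub continuous_id)).aestronglyMeasurable.smul (meas_DD δ))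
    (Eventually.of_forall fun z => ?_)
  rw [norm_smul, Real.norm_eq_abs]
  gcongr
  exact hg.bdd _

lemma Adm.cv_N1 (hd : Module.finrank ℝ E = 3) (hg : Adm μ g B) {δ : ℝ} (hδ : 0 < δ)
    (hδ1 : δ ≤ 1) (x : E) : cv μ N1 g x = cv μ (K1 δ) g x - cd μ δ g x := by
  have h1 : cd μ δ g x = ∫ y, g y • DD δ (x - y) ∂μ := by
    unfold cd
    rw [← integral_sub_left_eq_self (fun y => g y • DD δ (x - y)) μ x]
    simp
  have h2 : Integrable (fun y => g y • DD δ (x - y)) μ := by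
    have := (hg.int_cd hd hδ hδ1 x).comp_sub_left x
    simpa using this
  rw [h1]
  unfold cv
  rw [← integral_sub (hg.int_cv (continuous_K1 δ) (K1_decay hδ) x) h2]
  congr 1
  funext y
  rw [DD, smul_sub]
  abel

lemma Adm.norm_cd (hd : Module.finrank ℝ E = 3) (hg : Adm μ g B) {δ : ℝ} (hδ : 0 < δ)
    (hδ1 : δ ≤ 1) (x : E) : ‖cd μ δ g x‖ ≤ B * ∫ z : E, ‖DD δ z‖ ∂μ := by
  rw [← integral_const_mul]
  refine norm_integral_le_of_norm_le ((integrable_DD hd hδ hδ1).norm.const_mul B)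
    (Eventually.of_forall fun z => ?_)
  rw [norm_smul, Real.norm_eq_abs]
  gcongr
  exact hg.bdd _

lemma Adm.unif_K1 (hd : Module.finrank ℝ E = 3) (hg : Adm μ g B) :
    TendstoUniformly (fun n => cv μ (K1 (dl n)) g) (cv μ N1 g) atTop := by
  rw [Metric.tendstoUniformly_iff]
  intro ε hε
  have h := (tendsto_DD (μ := μ) hd).const_mul B
  rw [mul_zero] at h
  filter_upwards [h.eventually (Iio_mem_nhds hε)] with n hn x
  rw [hg.cv_N1 hd (dl_pos n) (dl_le n) x, dist_eq_norm, sub_sub_cancel_left, norm_neg]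
  exact (hg.norm_cd hd (dl_pos n) (dl_le n) x).trans_lt hn

theorem Adm.hasFDerivAt_N0 (hd : Module.finrank ℝ E = 3) (hg : Adm μ g B) (x : E) :
    HasFDerivAt (cv μ N0 g) (cv μ N1 g x) x :=
  hasFDerivAt_of_tendstoUniformly (hg.unif_K1 hd) (fun n x =>
    hg.hasFDerivAt_cv (hasFDerivAt_K0 _) (continuous_K1 _) (K0_decay (dl_pos n))
      (K1_decay (dl_pos n)) x) (hg.tendsto_K0 hd) x

theorem Adm.continuous_N1 (hd : Module.finrank ℝ E = 3) (hg : Adm μ g B) :
    Continuous (cv μ N1 g) :=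
  (hg.unif_K1 hd).continuous (Frequently.of_forall fun n =>
    hg.continuous_cv (continuous_K1 _) (K1_decay (dl_pos n)))

noncomputable def cd' (μ : Measure E) (δ : ℝ) (g' : E → E →L[ℝ] ℝ) (x : E) :
    E →L[ℝ] E →L[ℝ] ℝ :=
  ∫ z, (g' (x - z)).smulRight (DD δ z) ∂μ

lemma meas_cd' {g' : E → E →L[ℝ] ℝ} (hg' : Continuous g') (δ : ℝ) (x : E) :
    AEStronglyMeasurable (fun z => (g' (x - z)).smulRight (DD δ z)) μ :=
  (ContinuousLinearMap.smulRightL ℝ E (E →L[ℝ] ℝ)).aestronglyMeasurable_comp₂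
    (hg'.comp (continuous_const.sub continuous_id)).aestronglyMeasurable (meas_DD δ)

lemma bound_cd' {g' : E → E →L[ℝ] ℝ} (hg' : Continuous g') (x0 : E) : ∃ C : ℝ, ∀ δ : ℝ, 0 < δ →
    δ ≤ 1 → ∀ z, ∀ x ∈ Metric.ball x0 1, ‖(g' (x - z)).smulRight (DD δ z)‖ ≤ C * ‖DD δ z‖ := by
  obtain ⟨C, hC⟩ := (isCompact_closedBall x0 2).exists_bound_of_continuousOn hg'.continuousOn
  refine ⟨C, fun δ hδ hδ1 z x hx => ?_⟩
  rw [ContinuousLinearMap.norm_smulRight_apply]
  rcases le_total δ ‖z‖ with h | h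
  · rw [DD_out hδ h]; simp
  · gcongr
    apply hC
    rw [Metric.mem_closedBall, dist_eq_norm]
    have h1 : ‖x - x0‖ < 1 := by rwa [← dist_eq_norm]
    have h2 : x - z - x0 = (x - x0) - z := by abel
    rw [h2]
    linarith [norm_sub_le (x - x0) z]

lemma Adm.hasFDerivAt_cd (hd : Module.finrank ℝ E = 3) (hg : Adm μ g B) {g' : E → E →L[ℝ] ℝ}
    (hgg : ∀ y, HasFDerivAt g (g' y) y) (hg' : Continuous g') {δ : ℝ} (hδ : 0 < δ) (hδ1 : δ ≤ 1)
    (x0 : E) : HasFDerivAt (cd μ δ g) (cd' μ δ g' x0) x0 := by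
  obtain ⟨C, hC⟩ := bound_cd' hg' x0
  refine hasFDerivAt_integral_of_dominated_of_fderiv_le
    (F' := fun x z => (g' (x - z)).smulRight (DD δ z))
    (Metric.ball_mem_nhds x0 one_pos) (Eventually.of_forall fun x => (hg.int_cd hd hδ hδ1 x).1)
    (hg.int_cd hd hδ hδ1 x0) (meas_cd' hg' δ x0) (Eventually.of_forall (hC δ hδ hδ1))
    ((integrable_DD hd hδ hδ1).norm.const_mul C) (Eventually.of_forall fun z x _ => ?_)
  refine (((hgg (x - z)).comp x ((hasFDerivAt_id x).sub_const z)).smul_const (DD δ z)).congr_fderiv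
    ?_
  simp

lemma continuous_cd' (hd : Module.finrank ℝ E = 3) {g' : E → E →L[ℝ] ℝ}
    (hg' : Continuous g') {δ : ℝ} (hδ : 0 < δ) (hδ1 : δ ≤ 1) : Continuous (cd' μ δ g') := by
  rw [continuous_iff_continuousAt]
  intro x0
  obtain ⟨C, hC⟩ := bound_cd' hg' x0
  refine continuousAt_of_dominated (Eventually.of_forall (meas_cd' hg' δ)) ?_
    ((integrable_DD hd hδ hδ1).norm.const_mul C) (Eventually.of_forall fun z => ?_)
  · filter_upwards [Metric.ball_mem_nhds x0 one_pos] with x hx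
    exact Eventually.of_forall fun z => hC δ hδ hδ1 z x hx
  · exact ((ContinuousLinearMap.smulRightL ℝ E (E →L[ℝ] ℝ)).continuous₂.comp
      ((hg'.comp (continuous_id.sub continuous_const)).prodMk continuous_const)).continuousAt

lemma tendsto_cd' (hd : Module.finrank ℝ E = 3) {g' : E → E →L[ℝ] ℝ}
    (hg' : Continuous g') (x : E) : Tendsto (fun n => cd' μ (dl n) g' x) atTop (𝓝 0) := by
  obtain ⟨C, hC⟩ := bound_cd' hg' x
  have h := (tendsto_DD (μ := μ) hd).const_mul C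
  rw [mul_zero] at h
  refine squeeze_zero_norm (fun n => ?_) h
  rw [← integral_const_mul]
  exact norm_integral_le_of_norm_le ((integrable_DD hd (dl_pos n) (dl_le n)).norm.const_mul C)
    (Eventually.of_forall fun z => hC _ (dl_pos n) (dl_le n) z x (Metric.mem_ball_self one_pos))

lemma continuous_ρ : Continuous (ρ : E → ℝ) := by unfold ρ; fun_prop

lemma ρ_nonneg (z : E) : 0 ≤ ρ z := mul_nonneg (by norm_num) (le_max_right _ _)

lemma hasCompactSupport_ρ : HasCompactSupport (ρ : E → ℝ) := by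
  refine HasCompactSupport.intro (isCompact_closedBall 0 1) fun z hz => ?_
  have : 1 < ‖z‖ := by simpa using hz
  unfold ρ
  rw [max_eq_right (by nlinarith), mul_zero]

lemma integrable_ρ : Integrable (ρ : E → ℝ) μ :=
  continuous_ρ.integrable_of_hasCompactSupport hasCompactSupport_ρ

lemma integral_ρ_pos : 0 < ∫ z : E, ρ z ∂μ :=
  continuous_ρ.integral_pos_of_hasCompactSupport_nonneg_nonzero (x := 0) hasCompactSupport_ρ
    ρ_nonneg (by simp [ρ])

lemma Adm.tr_cv (hd : Module.finrank ℝ E = 3) (b : OrthonormalBasis (Fin 3) ℝ E)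
    (hg : Adm μ g B) {δ : ℝ} (hδ : 0 < δ) (x : E) :
    tr b (cv μ (K2 δ) g x) = -∫ z, g (x - δ • z) * ρ z ∂μ := by
  unfold cv
  rw [← (tr b).integral_comp_comm (hg.int_cv (continuous_K2 δ) (K2_decay hδ) x),
    ← integral_sub_left_eq_self _ μ x]
  have h := Measure.integral_comp_smul μ (fun z : E => g (x - δ • z) * ρ z) δ⁻¹
  rw [hd, abs_of_pos (by positivity), smul_eq_mul] at h
  have h2 : ∫ z, g (x - δ • z) * ρ z ∂μ =
      δ⁻¹ ^ 3 * ∫ z, g (x - δ • δ⁻¹ • z) * ρ (δ⁻¹ • z) ∂μ := by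
    rw [h]
    field_simp
  rw [h2, ← integral_const_mul, ← integral_neg]
  congr 1
  funext z
  rw [map_smul, tr_K2, smul_eq_mul, smul_inv_smul₀ hδ.ne', sub_sub_cancel]
  ring

lemma Adm.tendsto_ρ (hg : Adm μ g B) (x : E) :
    Tendsto (fun n => ∫ z, g (x - dl n • z) * ρ z ∂μ) atTop (𝓝 (g x * ∫ z : E, ρ z ∂μ)) := by
  rw [← integral_const_mul]
  refine tendsto_integral_filter_of_dominated_convergence (fun z => B * ρ z)
    (Eventually.of_forall fun n => ?_) (Eventually.of_forall fun n => Eventually.of_forall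
      fun z => ?_) (integrable_ρ.const_mul B) (Eventually.of_forall fun z => ?_)
  · exact ((hg.cont.comp (continuous_const.sub (continuous_const_smul _))).mul
      continuous_ρ).aestronglyMeasurable
  · rw [Real.norm_eq_abs, abs_mul, abs_of_nonneg (ρ_nonneg z)]
    exact mul_le_mul_of_nonneg_right (hg.bdd _) (ρ_nonneg z)
  · refine Tendsto.mul_const _ (hg.cont.continuousAt.tendsto.comp ?_)
    have := (tendsto_dl.smul_const z).const_sub x
    simpa using this

theorem Adm.second (hd : Module.finrank ℝ E = 3) (b : OrthonormalBasis (Fin 3) ℝ E)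
    (hg : Adm μ g B) {g' : E → E →L[ℝ] ℝ} (hgg : ∀ y, HasFDerivAt g (g' y) y)
    (hg' : Continuous g') : ∃ W : E → E →L[ℝ] E →L[ℝ] ℝ, Continuous W ∧
      (∀ x, HasFDerivAt (cv μ N1 g) (W x) x) ∧ ∀ x, tr b (W x) = -(g x * ∫ z : E, ρ z ∂μ) := by
  have key : ∀ δ : ℝ, 0 < δ → δ ≤ 1 → ∀ x,
      HasFDerivAt (cv μ N1 g) (cv μ (K2 δ) g x - cd' μ δ g' x) x := by
    intro δ hδ hδ1 x
    have : cv μ N1 g = fun x => cv μ (K1 δ) g x - cd μ δ g x := funext (hg.cv_N1 hd hδ hδ1)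
    rw [this]
    exact (hg.hasFDerivAt_cv (hasFDerivAt_K1 δ) (continuous_K2 δ) (K1_decay hδ) (K2_decay hδ)
      x).sub (hg.hasFDerivAt_cd hd hgg hg' hδ hδ1 x)
  refine ⟨fun x => cv μ (K2 1) g x - cd' μ 1 g' x,
    (hg.continuous_cv (continuous_K2 1) (K2_decay one_pos)).sub
      (continuous_cd' hd hg' one_pos le_rfl), key 1 one_pos le_rfl, fun x => ?_⟩
  have h1 : Tendsto (fun n => tr b (cv μ (K2 (dl n)) g x - cd' μ (dl n) g' x)) atTop
      (𝓝 (-(g x * ∫ z : E, ρ z ∂μ) - tr b 0)) := by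
    simp only [map_sub, hg.tr_cv hd b (dl_pos _)]
    exact (hg.tendsto_ρ x).neg.sub ((tr b).continuous.continuousAt.tendsto.comp
      (tendsto_cd' hd hg' x))
  have h2 : ∀ n, cv μ (K2 (dl n)) g x - cd' μ (dl n) g' x = cv μ (K2 1) g x - cd' μ 1 g' x :=
    fun n => (key _ (dl_pos n) (dl_le n) x).unique (key 1 one_pos le_rfl x)
  simp only [h2, map_zero, sub_zero] at h1
  exact tendsto_nhds_unique tendsto_const_nhds h1

end Pool.Agent.H853Z.Pde
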